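import Pool.Agent.K7.H95.TP.Low4

/-!
MP_0d5435_pr (helper95): LOW, part 5 (asymptotics).
-/

set_option autoImplicit false

open MeasureTheory ProbabilityTheory Filter Topology Matrix
open scoped ENNReal NNReal

namespace Pool.Agent.K7.H95.TP

noncomputable section

lemma log_RB {R : ℕ} (hR : 0 < R) : Tendsto (fun B : ℕ => Real.log (R * B : ℕ)) atTop atTop := by
  refine Real.tendsto_log_atTop.comp (tendsto_natCast_atTop_atTop.comp ?_)
  exact tendsto_id.const_mul_atTop' hR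

lemma low_num {R B : ℕ} (hR : 0 < R) (hB : 4 ≤ B) (hRB : R ≤ B) {κ : ℝ} (hκ : 0 < κ) (hκ1 : κ < 1)
    (hlog : 32 / κ ^ 2 ≤ Real.log (R * B : ℕ)) :
    Real.exp (-(((B - 1) / 2 : ℕ) * (Real.exp (-(√((2 - κ) * Real.log (R * B : ℕ)) + 1) ^ 2 / 2) /
      √(2 * Real.pi)))) +
      ((B - 1) / 2 : ℕ) * Real.exp (-√(20 * (B / R) * Real.log (R * B : ℕ)) ^ 2 /
        (2 * (1 + 4 * B / R))) ≤
    Real.exp (-((1 / (4 * R * √(2 * Real.pi) * Real.exp (1 / 2))) *
      Real.exp (κ / 4 * Real.log (R * B : ℕ)))) + 1 / (R * B : ℕ) := by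
  have hR' : (0 : ℝ) < R := by exact_mod_cast hR
  have hB0 : 0 < B := by omega
  have hB' : (0 : ℝ) < B := by exact_mod_cast hB0
  have hN : 0 < R * B := Nat.mul_pos hR hB0
  set N : ℝ := ((R * B : ℕ) : ℝ) with hNdef
  have hN' : (0 : ℝ) < N := by rw [hNdef]; exact_mod_cast hN
  have hNe : N = R * B := by rw [hNdef]; push_cast; ring
  set Λ := Real.log N with hΛ
  have hΛ0 : 0 < Λ := lt_of_lt_of_le (by positivity) hlog
  have hN1 : Real.exp Λ = N := Real.exp_log hN'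
  have hn1 : (((B - 1) / 2 : ℕ) : ℝ) ≤ B := by
    have : (B - 1) / 2 ≤ B := by omega
    exact_mod_cast this
  have hn2 : (B : ℝ) / 4 ≤ (((B - 1) / 2 : ℕ) : ℝ) := by
    have h1 : B ≤ 4 * ((B - 1) / 2) := by omega
    have h2 : (B : ℝ) ≤ 4 * (((B - 1) / 2 : ℕ) : ℝ) := by exact_mod_cast h1
    linarith
  refine add_le_add ?_ ?_
  · refine Real.exp_le_exp.2 (neg_le_neg ?_)
    set x := √((2 - κ) * Λ) with hx
    have hx2 : x ^ 2 = (2 - κ) * Λ := Real.sq_sqrt (by nlinarith)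
    have hx0 : 0 ≤ x := Real.sqrt_nonneg _
    have hxle : x ≤ κ / 4 * Λ := by
      refine Real.sqrt_le_iff.2 ⟨by positivity, ?_⟩
      have h1 : 32 ≤ κ ^ 2 * Λ := by
        rw [div_le_iff₀ (by positivity)] at hlog
        linarith
      nlinarith
    have h3 : -(x + 1) ^ 2 / 2 = κ / 2 * Λ - x - 1 / 2 - Λ := by nlinarith
    have h4 : Real.exp (κ / 4 * Λ) / (Real.exp (1 / 2) * N) ≤ Real.exp (-(x + 1) ^ 2 / 2) := by
      rw [h3, ← hN1, ← Real.exp_add, ← Real.exp_sub]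
      refine Real.exp_le_exp.2 ?_
      linarith
    calc 1 / (4 * R * √(2 * Real.pi) * Real.exp (1 / 2)) * Real.exp (κ / 4 * Λ)
        = B / 4 * (Real.exp (κ / 4 * Λ) / (Real.exp (1 / 2) * N) / √(2 * Real.pi)) := by
          rw [hNe]
          field_simp
      _ ≤ ((B - 1) / 2 : ℕ) * (Real.exp (-(x + 1) ^ 2 / 2) / √(2 * Real.pi)) := by
          gcongr
  · have h1 : √(20 * (B / R) * Λ) ^ 2 = 20 * (B / R) * Λ := Real.sq_sqrt (by positivity)
    have h2 : -√(20 * (B / R) * Λ) ^ 2 / (2 * (1 + 4 * B / R)) ≤ -(2 * Λ) := by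
      rw [h1, neg_div, neg_le_neg_iff, le_div_iff₀ (by positivity)]
      have h3 : (1 : ℝ) ≤ B / R := by
        rw [le_div_iff₀ hR']
        have : (R : ℝ) ≤ B := by exact_mod_cast hRB
        linarith
      have h4 : (4 : ℝ) * B / R = 4 * (B / R) := by ring
      rw [h4]
      nlinarith
    calc (((B - 1) / 2 : ℕ) : ℝ) * Real.exp (-√(20 * (B / R) * Λ) ^ 2 / (2 * (1 + 4 * B / R)))
        ≤ N * Real.exp (-(2 * Λ)) := by
          have h5 : (B : ℝ) ≤ N := by
            rw [hNe]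
            have : (1 : ℝ) ≤ R := by exact_mod_cast hR
            nlinarith
          exact mul_le_mul (hn1.trans h5) (Real.exp_le_exp.2 h2) (Real.exp_pos _).le hN'.le
      _ = 1 / N := by
          rw [Real.exp_neg, two_mul, Real.exp_add, hN1]
          field_simp

lemma low_RB {ε : ℝ} (hε : 0 < ε) (hε1 : ε < 1) : ∃ R : ℕ, 0 < R ∧
    Tendsto (fun B : ℕ => (gN (R * B)).real
      {g | mx (TG (R * B) g) < √((4 / 3 - ε) * (R * B : ℕ) * Real.log (R * B : ℕ))}) atTop (𝓝 0) := by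
  -- choice of `R`
  set Δ : ℝ := √(4 / 3 - 2 * ε / 3) - √(4 / 3 - ε) with hΔ
  have hΔ0 : 0 < Δ := by
    rw [hΔ, sub_pos]
    exact Real.sqrt_lt_sqrt (by linarith) (by linarith)
  obtain ⟨R, hR⟩ := exists_nat_gt (√20 / Δ)
  have hR' : (0 : ℝ) < R := lt_of_le_of_lt (by positivity) hR
  have hR0 : 0 < R := by exact_mod_cast hR'
  have hRΔ : √20 / R ≤ Δ := by
    rw [div_lt_iff₀ hΔ0] at hR
    rw [div_le_iff₀ hR']
    linarith
  refine ⟨R, hR0, ?_⟩
  have hlog := log_RB hR0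
  set C : ℝ := 1 / (4 * R * √(2 * Real.pi) * Real.exp (1 / 2)) with hC
  have hC0 : 0 < C := by rw [hC]; positivity
  have hlim : Tendsto (fun B : ℕ => Real.exp (-(C * Real.exp (ε / 4 * Real.log (R * B : ℕ)))) +
      1 / (R * B : ℕ)) atTop (𝓝 (0 + 0)) := by
    refine Tendsto.add ?_ ?_
    · refine Real.tendsto_exp_atBot.comp (tendsto_neg_atTop_atBot.comp ?_)
      refine Tendsto.const_mul_atTop hC0 (Real.tendsto_exp_atTop.comp ?_)
      exact hlog.const_mul_atTop (by linarith)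
    · refine tendsto_const_nhds.div_atTop (tendsto_natCast_atTop_atTop.comp ?_)
      exact tendsto_id.const_mul_atTop' hR0
  rw [add_zero] at hlim
  refine tendsto_of_tendsto_of_tendsto_of_le_of_le' tendsto_const_nhds hlim
    (Eventually.of_forall fun _ => measureReal_nonneg) ?_
  filter_upwards [eventually_ge_atTop 4, eventually_ge_atTop R,
    hlog.eventually_ge_atTop (32 / ε ^ 2)] with B h4 hRB hl
  have hB0 : 0 < B := by omega
  have hB' : (0 : ℝ) < B := by exact_mod_cast hB0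
  refine le_trans ?_ (low_num hR0 h4 hRB hε hε1 hl)
  refine le_trans ?_ (low_core hR0 hB0 (Real.sqrt_nonneg _) (Real.sqrt_nonneg _))
  refine measureReal_mono ?_
  intro g hg
  have hg' : mx (TG (R * B) g) < √((4 / 3 - ε) * (R * B : ℕ) * Real.log (R * B : ℕ)) := hg
  refine lt_of_lt_of_le hg' ?_
  set N : ℝ := ((R * B : ℕ) : ℝ) with hNdef
  have hNe : N = R * B := by rw [hNdef]; push_cast; ring
  have hN' : (0 : ℝ) < N := by rw [hNe]; positivity
  set Λ := Real.log N with hΛ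
  have hΛ0 : 0 < Λ := lt_of_lt_of_le (by positivity) hl
  have h1 : √((4 / 3 - ε) * N * Λ) = √(4 / 3 - ε) * √(N * Λ) := by
    rw [mul_assoc, Real.sqrt_mul (by linarith)]
  have h2 : √(20 * (B / R) * Λ) = √20 / R * √(N * Λ) := by
    have e : (20 : ℝ) * (B / R) * Λ = 20 * ((1 / R) ^ 2 * (N * Λ)) := by
      rw [hNe]
      field_simp
    rw [e, Real.sqrt_mul (by norm_num), Real.sqrt_mul (by positivity),
      Real.sqrt_sq (by positivity)]
    ring
  have h3 : √(4 / 3 - 2 * ε / 3) * √(N * Λ) ≤ √(2 * B * SR R) * √((2 - ε) * Λ) := by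
    rw [← Real.sqrt_mul (by linarith), ← Real.sqrt_mul (by
      have : 0 ≤ SR R := Finset.sum_nonneg fun r _ => sq_nonneg _
      positivity)]
    refine Real.sqrt_le_sqrt ?_
    have h4 := SR_ge R hR0
    have e : (4 / 3 - 2 * ε / 3) * (N * Λ) = 2 * B * (R / 3) * ((2 - ε) * Λ) := by
      rw [hNe]; ring
    rw [e]
    have h5 : 0 ≤ (2 - ε) * Λ := mul_nonneg (by linarith) hΛ0.le
    exact mul_le_mul_of_nonneg_right (mul_le_mul_of_nonneg_left h4 (by positivity)) h5
  rw [h1, h2]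
  have h6 : √20 / R * √(N * Λ) ≤ Δ * √(N * Λ) :=
    mul_le_mul_of_nonneg_right hRΔ (Real.sqrt_nonneg _)
  have h7 : Δ * √(N * Λ) = √(4 / 3 - 2 * ε / 3) * √(N * Λ) - √(4 / 3 - ε) * √(N * Λ) := by
    rw [hΔ]; ring
  linarith

theorem s_LOW : S_LOW := by
  intro ε hε hε1
  obtain ⟨R, hR0, hlim⟩ := low_RB (half_pos hε) (by linarith : ε / 2 < 1)
  have hR' : (0 : ℝ) < R := by exact_mod_cast hR0
  have hdiv : Tendsto (fun N : ℕ => N / R) atTop atTop := Nat.tendsto_div_const_atTop hR0.ne'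
  have h1 := (ENNReal.tendsto_ofReal (hlim.comp hdiv))
  rw [ENNReal.ofReal_zero] at h1
  refine tendsto_of_tendsto_of_tendsto_of_le_of_le' tendsto_const_nhds h1
    (Eventually.of_forall fun _ => zero_le) ?_
  set δ : ℝ := ε / 8 with hδ
  have hlogN : Tendsto (fun N : ℕ => Real.log N) atTop atTop :=
    Real.tendsto_log_atTop.comp tendsto_natCast_atTop_atTop
  have hcN : Tendsto (fun N : ℕ => (N : ℝ)) atTop atTop := tendsto_natCast_atTop_atTop
  filter_upwards [eventually_ge_atTop R, hcN.eventually_ge_atTop (R / δ),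
    hlogN.eventually_ge_atTop ((-Real.log (1 - δ)) / δ)] with N hN h2 h3
  have hB0 : 0 < N / R := Nat.div_pos hN hR0
  have hM0 : 0 < R * (N / R) := Nat.mul_pos hR0 hB0
  have hMN : R * (N / R) ≤ N := Nat.mul_div_le N R
  have hδ0 : 0 < δ := by rw [hδ]; positivity
  have hδ1 : δ < 1 / 8 := by rw [hδ]; linarith
  have hN' : (0 : ℝ) < N := by exact_mod_cast lt_of_lt_of_le hR0 hN
  have hMN2 : N < R * (N / R) + R := by
    have := Nat.lt_mul_div_succ N hR0
    rw [mul_add, mul_one] at this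
    exact this
  -- comparison of the thresholds
  have hM1 : (1 - δ) * N ≤ ((R * (N / R) : ℕ) : ℝ) := by
    have h4 : (N : ℝ) < ((R * (N / R) : ℕ) : ℝ) + R := by exact_mod_cast hMN2
    rw [div_le_iff₀ hδ0] at h2
    linarith
  have hlog0 : 0 ≤ Real.log N := by
    refine le_trans ?_ h3
    refine div_nonneg ?_ hδ0.le
    rw [neg_nonneg]
    exact Real.log_nonpos (by linarith) (by linarith)
  have hM2 : (1 - δ) * Real.log N ≤ Real.log ((R * (N / R) : ℕ) : ℝ) := by
    have h5 : Real.log ((1 - δ) * N) ≤ Real.log ((R * (N / R) : ℕ) : ℝ) :=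
      Real.log_le_log (mul_pos (by linarith) hN') hM1
    rw [Real.log_mul (by linarith) hN'.ne'] at h5
    rw [div_le_iff₀ hδ0] at h3
    linarith
  have hthr : √((4 / 3 - ε) * N * Real.log N) ≤
      √((4 / 3 - ε / 2) * (R * (N / R) : ℕ) * Real.log (R * (N / R) : ℕ)) := by
    refine Real.sqrt_le_sqrt ?_
    calc (4 / 3 - ε) * N * Real.log N ≤ ((4 / 3 - ε / 2) * ((1 - δ) * (1 - δ))) * N * Real.log N := by
          have h6 : 4 / 3 - ε ≤ (4 / 3 - ε / 2) * ((1 - δ) * (1 - δ)) := by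
            have a1 : 1 - ε / 4 ≤ (1 - δ) * (1 - δ) := by
              rw [hδ]; nlinarith [sq_nonneg ε]
            have a2 : (4 / 3 - ε / 2) * (1 - ε / 4) ≤ (4 / 3 - ε / 2) * ((1 - δ) * (1 - δ)) :=
              mul_le_mul_of_nonneg_left a1 (by linarith)
            nlinarith [sq_nonneg ε]
          gcongr
      _ = (4 / 3 - ε / 2) * ((1 - δ) * N) * ((1 - δ) * Real.log N) := by ring
      _ ≤ (4 / 3 - ε / 2) * (R * (N / R) : ℕ) * Real.log (R * (N / R) : ℕ) := by
          have h7 : (0 : ℝ) ≤ 1 - δ := by linarith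
          have h8 : (0 : ℝ) ≤ 4 / 3 - ε / 2 := by linarith
          gcongr
  -- comparison of the events
  have hmp := mp_rs hMN
  have h9 : {g : Fin N → ℝ | mx (TG N g) < √((4 / 3 - ε) * N * Real.log N)} ⊆
      rs hMN ⁻¹' {g | mx (TG (R * (N / R)) g) <
        √((4 / 3 - ε / 2) * (R * (N / R) : ℕ) * Real.log (R * (N / R) : ℕ))} := by
    intro g hg
    have h10 : mx (TG N g) < √((4 / 3 - ε) * N * Real.log N) := hg
    have h11 : mx (TG (R * (N / R)) (rs hMN g)) ≤ mx (TG N g) := by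
      rw [← Tz_rs hMN g]
      exact mx_mono hM0 hMN (xt g)
    show mx (TG (R * (N / R)) (rs hMN g)) < _
    exact lt_of_le_of_lt h11 (lt_of_lt_of_le h10 hthr)
  calc gN N {g | mx (TG N g) < √((4 / 3 - ε) * N * Real.log N)}
      ≤ gN N (rs hMN ⁻¹' {g | mx (TG (R * (N / R)) g) <
        √((4 / 3 - ε / 2) * (R * (N / R) : ℕ) * Real.log (R * (N / R) : ℕ))}) := measure_mono h9
    _ ≤ (gN N).map (rs hMN) {g | mx (TG (R * (N / R)) g) <
        √((4 / 3 - ε / 2) * (R * (N / R) : ℕ) * Real.log (R * (N / R) : ℕ))} :=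
        Measure.le_map_apply hmp.measurable.aemeasurable _
    _ = _ := by
        rw [hmp.map_eq]
        simp only [Function.comp]
        rw [ofReal_measureReal]

end

end Pool.Agent.K7.H95.TP
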