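import Mathlib

/-!
MP_0d5435_pr (helper95): no Poisson limit at the top of the spectrum of Gaussian random Toeplitz
matrices. Definitions and statements of the pieces. The proof is explained in `NOTES.md`.
-/

set_option autoImplicit false

open MeasureTheory ProbabilityTheory Filter Topology Matrix
open scoped ENNReal NNReal

namespace Pool.Agent.K7.H95.TP

noncomputable section

/-- the `n × n` Toeplitz matrix with entries `x_{|i-j|}` -/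
def Tz (n : ℕ) (x : ℕ → ℝ) : Matrix (Fin n) (Fin n) ℝ :=
  Matrix.of fun i j => x (Int.natAbs ((i : ℤ) - (j : ℤ)))

/-- quadratic form -/
def qf {n : ℕ} (T : Matrix (Fin n) (Fin n) ℝ) (u : Fin n → ℝ) : ℝ := u ⬝ᵥ T.mulVec u

/-- the largest value of the quadratic form on unit vectors (largest eigenvalue) -/
def mx {n : ℕ} (T : Matrix (Fin n) (Fin n) ℝ) : ℝ := sSup (qf T '' {u | u ⬝ᵥ u = 1})

/-- standard Gaussian vectors -/
def gN (N : ℕ) : Measure (Fin N → ℝ) := Measure.pi fun _ => gaussianReal 0 1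

instance (N : ℕ) : IsProbabilityMeasure (gN N) := by unfold gN; infer_instance

/-- extension by zero -/
def xt {N : ℕ} (g : Fin N → ℝ) (k : ℕ) : ℝ := if h : k < N then g ⟨k, h⟩ else 0

/-- the Gaussian Toeplitz matrix -/
def TG (N : ℕ) (g : Fin N → ℝ) : Matrix (Fin N) (Fin N) ℝ := Tz N (xt g)

/-- vectors of length `K * M` which are constant on the `M` blocks of length `K`, with sum zero -/
def BC (K M : ℕ) (u : Fin (K * M) → ℝ) : Prop :=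
  (∀ i j : Fin (K * M), (i : ℕ) / K = (j : ℕ) / K → u i = u j) ∧ ∑ i, u i = 0

/-- EIG: elementary facts on largest eigenvalues -/
def S_EIG : Prop := ∀ (n : ℕ) (T : Matrix (Fin n) (Fin n) ℝ) (hT : T.IsHermitian), 0 < n →
  (∀ u : Fin n → ℝ, qf T u ≤ mx T * (u ⬝ᵥ u)) ∧
  (∀ i, hT.eigenvalues i ≤ mx T) ∧ (∃ i, hT.eigenvalues i = mx T) ∧
  (∀ T' : Matrix (Fin n) (Fin n) ℝ, |mx T - mx T'| ≤ ∑ i, ∑ j, |T i j - T' i j|) ∧
  (∀ u w : Fin n → ℝ, |u ⬝ᵥ T.mulVec w| ≤ (mx T ⊔ mx (-T)) * (√(u ⬝ᵥ u) * √(w ⬝ᵥ w))) ∧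
  ∀ (g : ℝ) (i₀ : Fin n), 0 ≤ g → (∀ i, i ≠ i₀ → hT.eigenvalues i ≤ hT.eigenvalues i₀ - g) →
    ∃ v : Fin n → ℝ, v ⬝ᵥ v = 1 ∧ ∀ u : Fin n → ℝ, u ⬝ᵥ u = 1 → qf T u ≤ mx T - g * (1 - (u ⬝ᵥ v) ^ 2)

/-- MOM: Gaussian series of symmetric matrices, trace moments -/
def S_MOM : Prop := ∀ (m N : ℕ) (B : Fin m → Matrix (Fin N) (Fin N) ℝ)
  (Q : Matrix (Fin N) (Fin N) ℝ) (v : ℝ), 0 ≤ v → (∀ k, (B k).IsSymm) → Q.IsSymm → Q * Q = Q →
  (∀ k, Q * B k = B k) → (∀ u : Fin N → ℝ, qf (∑ k, B k * B k) u ≤ v * qf Q u) →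
  ∀ p : ℕ, 0 < p → Integrable (fun g : Fin m → ℝ => ((∑ k, g k • B k) ^ (2 * p)).trace) (gN m) ∧
    ∫ g : Fin m → ℝ, ((∑ k, g k • B k) ^ (2 * p)).trace ∂gN m ≤
      ((2 * p - 1).doubleFactorial : ℝ) * v ^ p * Q.trace

/-- WIN: the quadratic form on block constant vectors, with `K = 2 L²`, `M ≈ L³` -/
def S_WIN : Prop := ∀ ε : ℝ, 0 < ε → ∀ᶠ L : ℕ in atTop, ∀ M : ℕ, L ^ 3 ≤ M → M ≤ 2 * L ^ 3 + 1 →
  gN (2 * L ^ 2 * M) {g | ∃ u, BC (2 * L ^ 2) M u ∧ u ⬝ᵥ u = 1 ∧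
    √((6 + ε) * (2 * L ^ 2 * M : ℕ) * Real.log L) < qf (TG (2 * L ^ 2 * M) g) u} ≤
    ENNReal.ofReal ε

/-- NORM: a crude bound on the norm -/
def S_NORM : Prop := ∃ C : ℝ, 0 < C ∧ ∀ N : ℕ, 2 ≤ N →
  Integrable (fun g => mx (TG N g) ⊔ mx (-TG N g)) (gN N) ∧
  ∫ g, (mx (TG N g) ⊔ mx (-TG N g)) ∂gN N ≤ C * √(N * Real.log N)

/-- ONE: the constant vector -/
def S_ONE : Prop := ∀ N : ℕ, Integrable (fun g => ∑ i, (∑ j, TG N g i j) ^ 2) (gN N) ∧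
  ∫ g, ∑ i, (∑ j, TG N g i j) ^ 2 ∂gN N ≤ 2 * (N : ℝ) ^ 2

/-- LOW: lower bound for the largest eigenvalue -/
def S_LOW : Prop := ∀ ε : ℝ, 0 < ε → ε < 1 → Tendsto (fun N : ℕ =>
  gN N {g | mx (TG N g) < √((4 / 3 - ε) * N * Real.log N)}) atTop (𝓝 0)

/-- ANTI: anti-concentration of the largest eigenvalue (because of the diagonal) -/
def S_ANTI : Prop := ∀ N : ℕ, 0 < N → ∀ s t : ℝ, s ≤ t →
  gN N {g | s < mx (TG N g) ∧ mx (TG N g) ≤ t} ≤ ENNReal.ofReal (t - s)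

/-- DET: if the two largest eigenvalues of `T_{K (m+1)}` have distance at least `g`, and the largest
eigenvalue of `T_{K m}` is within `δ g` of that of `T_{K (m+1)}`, then the top eigenvector of the
latter is almost invariant under translations by at most `K` (up to a sign `s^a`), hence almost
constant on blocks of length `K` (after multiplication by `s^i`). -/
def S_DET : Prop := ∀ (K m : ℕ), 0 < K → Even K → 0 < m → ∀ (x : ℕ → ℝ) (g δ : ℝ), 0 < g →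
  0 ≤ δ → δ ≤ 1 / 1000 → ∀ v : Fin (K * (m + 1)) → ℝ, v ⬝ᵥ v = 1 →
  (∀ u, u ⬝ᵥ u = 1 → qf (Tz (K * (m + 1)) x) u ≤
    mx (Tz (K * (m + 1)) x) - g * (1 - (u ⬝ᵥ v) ^ 2)) →
  mx (Tz (K * (m + 1)) x) - mx (Tz (K * m) x) ≤ δ * g →
  ∀ W R E : ℝ, 0 ≤ W → 0 ≤ R → 0 ≤ E →
  (∀ s : ℝ, s = 1 ∨ s = -1 → ∀ z, BC K (m + 1) z → z ⬝ᵥ z = 1 →
    qf (Tz (K * (m + 1)) fun k => s ^ k * x k) z ≤ W) →
  (∀ u w : Fin (K * (m + 1)) → ℝ, |u ⬝ᵥ (Tz (K * (m + 1)) x).mulVec w| ≤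
    R * (√(u ⬝ᵥ u) * √(w ⬝ᵥ w))) →
  (∀ s : ℝ, s = 1 ∨ s = -1 → ∑ i, (∑ j, Tz (K * (m + 1)) (fun k => s ^ k * x k) i j) ^ 2 ≤
    E ^ 2 * (K * (m + 1) : ℕ)) →
  mx (Tz (K * (m + 1)) x) ≤ W + 30 * √δ * R + 3 * E

/-- number of eigenvalues larger than `s` -/
def cnt {n : ℕ} {T : Matrix (Fin n) (Fin n) ℝ} (hT : T.IsHermitian) (I : Set ℝ) : ℕ :=
  Nat.card {i // hT.eigenvalues i ∈ I}

lemma Tz_herm (n : ℕ) (x : ℕ → ℝ) : (Tz n x).IsHermitian := by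
  ext i j
  simp only [Matrix.conjTranspose_apply, star_trivial, Tz, Matrix.of_apply]
  rw [← Int.natAbs_neg, neg_sub]

/-- CNT: measurability of the counting functions -/
def S_CNT : Prop := ∀ (n : ℕ) (s : ℝ), Measurable fun g : Fin n → ℝ =>
  cnt (Tz_herm n (xt g)) (Set.Ioi s)

end

end Pool.Agent.K7.H95.TP
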