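import Pool.Agent.K7.H95.TP.Fin4
import Pool.Agent.K7.H95.TP.Low5
import Pool.Agent.K7.H98.TP.Mom
import Pool.Agent.K7.H98.TP.Win
import Pool.Agent.K7.H98.TP.Norm
import Pool.Agent.K7.H89.TP.Det
import Pool.Agent.K7.H89.TP.Eig
import Pool.Agent.K7.H89.TP.Anti
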