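import Pool.Agent.K7.H95.TP.Defs

/-!
MP_0d5435_pr (helper95): measurability of the eigenvalue counting functions.
-/

set_option autoImplicit false

open MeasureTheory ProbabilityTheory Filter Topology Matrix
open scoped ENNReal NNReal

namespace Pool.Agent.K7.H95.TP

noncomputable section

open Polynomial in
/-- trace of a polynomial in a symmetric matrix -/
lemma trace_aeval {n : ℕ} {A : Matrix (Fin n) (Fin n) ℝ} (hA : A.IsHermitian) (p : ℝ[X]) :
    (aeval A p).trace = ∑ i, p.eval (hA.eigenvalues i) := by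
  set φ := Unitary.conjStarAlgAut ℝ _ hA.eigenvectorUnitary with hφ
  have h1 : A = φ (diagonal hA.eigenvalues) := by
    conv_lhs => rw [hA.spectral_theorem]
    rfl
  have h2 : aeval A p = φ (aeval (diagonal hA.eigenvalues) p) := by
    conv_lhs => rw [h1]
    exact Polynomial.aeval_algHom_apply (φ : Matrix (Fin n) (Fin n) ℝ →ₐ[ℝ] Matrix (Fin n) (Fin n) ℝ)
      (diagonal hA.eigenvalues) p
  have h3 : aeval (diagonal hA.eigenvalues : Matrix (Fin n) (Fin n) ℝ) p =
      diagonal (fun i => p.eval (hA.eigenvalues i)) := by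
    have h4 := Polynomial.aeval_algHom_apply (Matrix.diagonalAlgHom (n := Fin n) (α := ℝ) ℝ)
      hA.eigenvalues p
    have h5 : Polynomial.aeval hA.eigenvalues p = fun i => p.eval (hA.eigenvalues i) := by
      rw [Polynomial.aeval_pi_apply]
      funext i
      exact Polynomial.aeval_def _ _ |>.trans (by simp [Polynomial.eval₂_eq_eval_map])
    rw [h5] at h4
    exact h4
  rw [h2, h3, hφ, Unitary.conjStarAlgAut_apply, Matrix.trace_mul_comm, ← mul_assoc]
  simp [Matrix.trace_diagonal]

/-- the ramp -/
def ramp (s : ℝ) (m : ℕ) (x : ℝ) : ℝ := min 1 (max 0 (m * (x - s)))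

lemma ramp_cont (s : ℝ) (m : ℕ) : Continuous (ramp s m) := by unfold ramp; fun_prop

lemma ramp_lim (s x : ℝ) : Tendsto (fun m : ℕ => ramp s m x) atTop
    (𝓝 (if s < x then 1 else 0)) := by
  by_cases h : s < x
  · rw [if_pos h]
    refine tendsto_const_nhds.congr' ?_
    obtain ⟨N, hN⟩ := exists_nat_gt (1 / (x - s))
    filter_upwards [eventually_ge_atTop N] with m hm
    have h1 : (1 : ℝ) ≤ m * (x - s) := by
      have h2 : (N : ℝ) ≤ m := by exact_mod_cast hm
      have h3 : 0 < x - s := by linarith
      rw [div_lt_iff₀ h3] at hN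
      nlinarith
    unfold ramp
    rw [max_eq_right (by linarith), min_eq_left h1]
  · rw [if_neg h]
    refine tendsto_const_nhds.congr fun m => ?_
    have h1 : (m : ℝ) * (x - s) ≤ 0 := by
      have : (0 : ℝ) ≤ m := Nat.cast_nonneg m
      nlinarith
    unfold ramp
    rw [max_eq_left h1, min_eq_right (by norm_num)]

open Polynomial in
/-- polynomials converging pointwise to the indicator of a half line -/
lemma exists_poly (s : ℝ) : ∃ p : ℕ → ℝ[X], ∀ x : ℝ,
    Tendsto (fun m => (p m).eval x) atTop (𝓝 (if s < x then 1 else 0)) := by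
  have h1 : ∀ m : ℕ, ∃ p : ℝ[X], ∀ x ∈ Set.Icc (-(m : ℝ)) m,
      |p.eval x - ramp s m x| < 1 / ((m : ℝ) + 1) := fun m =>
    exists_polynomial_near_of_continuousOn _ _ _ (ramp_cont s m).continuousOn _ (by positivity)
  choose p hp using h1
  refine ⟨p, fun x => ?_⟩
  have h2 : Tendsto (fun m => (p m).eval x - ramp s m x) atTop (𝓝 0) := by
    refine squeeze_zero_norm' ?_ (tendsto_one_div_add_atTop_nhds_zero_nat (𝕜 := ℝ))
    obtain ⟨N, hN⟩ := exists_nat_gt |x|
    filter_upwards [eventually_ge_atTop N] with m hm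
    have h3 : |x| ≤ m := hN.le.trans (by exact_mod_cast hm)
    exact (hp m x (abs_le.1 h3)).le
  simpa using h2.add (ramp_lim s x)

lemma cnt_eq {n : ℕ} {T : Matrix (Fin n) (Fin n) ℝ} (hT : T.IsHermitian) (I : Set ℝ)
    [DecidablePred (· ∈ I)] : cnt hT I = ∑ i, if hT.eigenvalues i ∈ I then 1 else 0 := by
  unfold cnt
  rw [Nat.card_eq_fintype_card, Fintype.card_subtype, Finset.card_filter]

lemma meas_TG_pow {n : ℕ} (k : ℕ) (i j : Fin n) :
    Measurable fun g : Fin n → ℝ => (Tz n (xt g) ^ k) i j := by
  induction k generalizing i j with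
  | zero => simp only [pow_zero]; exact measurable_const
  | succ k ih =>
    simp only [pow_succ, Matrix.mul_apply]
    refine Finset.measurable_fun_sum _ fun l _ => (ih i l).mul ?_
    show Measurable fun g : Fin n → ℝ => xt g (Int.natAbs ((l : ℤ) - (j : ℤ)))
    unfold xt
    by_cases h : Int.natAbs ((l : ℤ) - (j : ℤ)) < n
    · simp only [h, dite_true]; exact measurable_pi_apply _
    · simp only [h, dite_false]; exact measurable_const

open Polynomial in
theorem s_CNT : S_CNT := by
  intro n s
  obtain ⟨p, hp⟩ := exists_poly s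
  have h1 : Measurable fun g : Fin n → ℝ => (cnt (Tz_herm n (xt g)) (Set.Ioi s) : ℝ) := by
    refine measurable_of_tendsto_metrizable (f := fun m g => (aeval (Tz n (xt g)) (p m)).trace)
      (fun m => ?_) ?_
    · simp only [Polynomial.aeval_eq_sum_range, Matrix.trace_sum, Matrix.trace_smul]
      refine Finset.measurable_fun_sum _ fun k _ => ?_
      simp only [smul_eq_mul]
      refine Measurable.const_mul ?_ _
      unfold Matrix.trace
      exact Finset.measurable_fun_sum _ fun i _ => meas_TG_pow k i i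
    · rw [tendsto_pi_nhds]
      intro g
      classical
      simp only [trace_aeval (Tz_herm n (xt g))]
      rw [cnt_eq]
      push_cast
      exact tendsto_finsetSum _ fun i _ => hp _
  refine measurable_to_countable' fun k => ?_
  have h2 : (fun g : Fin n → ℝ => cnt (Tz_herm n (xt g)) (Set.Ioi s)) ⁻¹' {k} =
      (fun g : Fin n → ℝ => (cnt (Tz_herm n (xt g)) (Set.Ioi s) : ℝ)) ⁻¹' {(k : ℝ)} := by
    ext g; simp
  rw [h2]
  exact h1 (measurableSet_singleton _)

end

end Pool.Agent.K7.H95.TP
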