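import Pool.Agent.K7.H95.TP.Cnt

/-!
MP_0d5435_pr (helper95): assembly, part 1 (elementary facts, gap event).
-/

set_option autoImplicit false

open MeasureTheory ProbabilityTheory Filter Topology Matrix
open scoped ENNReal NNReal

namespace Pool.Agent.K7.H95.TP

noncomputable section

lemma Tz_congr {n : ℕ} {x y : ℕ → ℝ} (h : ∀ k, k < n → x k = y k) : Tz n x = Tz n y := by
  ext i j
  simp only [Tz, Matrix.of_apply]
  refine h _ ?_
  have := i.2
  have := j.2
  omega

lemma xt_lt {N : ℕ} (g : Fin N → ℝ) {k : ℕ} (h : k < N) : xt g k = g ⟨k, h⟩ := by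
  unfold xt; rw [dif_pos h]

/-- restriction to the first coordinates -/
def rs {n N : ℕ} (h : n ≤ N) (g : Fin N → ℝ) : Fin n → ℝ := fun i => g (Fin.castLE h i)

lemma Tz_rs {n N : ℕ} (h : n ≤ N) (g : Fin N → ℝ) : Tz n (xt g) = TG n (rs h g) := by
  unfold TG
  refine Tz_congr fun k hk => ?_
  rw [xt_lt g (by omega), xt_lt _ hk]
  rfl

lemma mp_rs {n N : ℕ} (h : n ≤ N) : MeasurePreserving (rs h) (gN N) (gN n) := by
  have hmeas : Measurable (rs h) := measurable_pi_lambda _ fun i => measurable_pi_apply _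
  refine ⟨hmeas, ?_⟩
  have h1 : iIndepFun (fun (i : Fin N) (w : Fin N → ℝ) => w i) (gN N) :=
    iIndepFun_pi (μ := fun _ : Fin N => gaussianReal 0 1) (X := fun _ => id)
      fun _ => aemeasurable_id
  have h2 := h1.precomp (Fin.castLE_injective h)
  have h3 := h2.map_fun_eq_pi_map fun i => (measurable_pi_apply _).aemeasurable
  have h4 : (gN N).map (rs h) = Measure.pi fun i : Fin n =>
      (gN N).map fun w : Fin N → ℝ => w (Fin.castLE h i) := h3
  rw [h4]
  unfold gN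
  congr 1
  funext i
  exact (measurePreserving_eval (fun _ : Fin N => gaussianReal 0 1) _).map_eq

/-- padding by zeros on the right -/
def pad {n : ℕ} (N : ℕ) (u : Fin n → ℝ) : Fin N → ℝ := fun i => if h : (i : ℕ) < n then u ⟨i, h⟩ else 0

lemma sum_pad {n N : ℕ} (h : n ≤ N) (f : Fin N → ℝ) (hf : ∀ i : Fin N, n ≤ (i : ℕ) → f i = 0) :
    ∑ i, f i = ∑ i : Fin n, f (Fin.castLE h i) := by
  symm
  refine Finset.sum_of_injOn (Fin.castLE h) (fun i _ j _ hij => Fin.castLE_injective h hij)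
    (fun i _ => Finset.mem_coe.2 (Finset.mem_univ _)) (fun i _ hi => ?_) (fun i _ => rfl)
  refine hf i ?_
  by_contra hc
  push Not at hc
  exact hi ⟨⟨i, hc⟩, Finset.mem_coe.2 (Finset.mem_univ _), Fin.ext rfl⟩

lemma pad_cast {n N : ℕ} (h : n ≤ N) (u : Fin n → ℝ) (i : Fin n) :
    pad N u (Fin.castLE h i) = u i := by
  unfold pad; rw [dif_pos (by simp)]; rfl

lemma pad_zero {n N : ℕ} (u : Fin n → ℝ) (i : Fin N) (h : n ≤ (i : ℕ)) : pad N u i = 0 := by
  unfold pad; rw [dif_neg (by omega)]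

lemma dot_pad {n N : ℕ} (h : n ≤ N) (u : Fin n → ℝ) : pad N u ⬝ᵥ pad N u = u ⬝ᵥ u := by
  unfold dotProduct
  rw [sum_pad h _ fun i hi => by rw [pad_zero u i hi]; ring]
  refine Finset.sum_congr rfl fun i _ => ?_
  rw [pad_cast]

lemma qf_pad {n N : ℕ} (h : n ≤ N) (x : ℕ → ℝ) (u : Fin n → ℝ) :
    qf (Tz N x) (pad N u) = qf (Tz n x) u := by
  have e : ∀ (k : ℕ) (w : Fin k → ℝ), qf (Tz k x) w = ∑ i, w i * ∑ j, Tz k x i j * w j :=
    fun _ _ => rfl
  rw [e, e]
  rw [sum_pad h _ fun i hi => by rw [pad_zero u i hi]; ring]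
  refine Finset.sum_congr rfl fun i _ => ?_
  rw [pad_cast, sum_pad h _ fun j hj => by rw [pad_zero u j hj]; ring]
  congr 1
  refine Finset.sum_congr rfl fun j _ => ?_
  rw [pad_cast]
  simp [Tz]

lemma qf_le_abs {n : ℕ} (T : Matrix (Fin n) (Fin n) ℝ) {u : Fin n → ℝ} (hu : u ⬝ᵥ u = 1) :
    |qf T u| ≤ ∑ i, ∑ j, |T i j| := by
  have h1 : ∀ i, |u i| ≤ 1 := by
    intro i
    have h2 : u i * u i ≤ u ⬝ᵥ u := by
      unfold dotProduct
      exact Finset.single_le_sum (f := fun i => u i * u i) (fun j _ => mul_self_nonneg _)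
        (Finset.mem_univ i)
    rw [hu] at h2
    rw [abs_le]
    constructor <;> nlinarith
  unfold qf Matrix.mulVec dotProduct
  refine (Finset.abs_sum_le_sum_abs _ _).trans (Finset.sum_le_sum fun i _ => ?_)
  rw [abs_mul]
  have h3 : |∑ j, T i j * u j| ≤ ∑ j, |T i j| := by
    refine (Finset.abs_sum_le_sum_abs _ _).trans (Finset.sum_le_sum fun j _ => ?_)
    rw [abs_mul]
    have := h1 j
    nlinarith [abs_nonneg (T i j), abs_nonneg (u j)]
  calc |u i| * |∑ j, T i j * u j| ≤ 1 * ∑ j, |T i j| :=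
        mul_le_mul (h1 i) h3 (abs_nonneg _) (by norm_num)
    _ = _ := one_mul _

lemma mx_bdd {n : ℕ} (T : Matrix (Fin n) (Fin n) ℝ) : BddAbove (qf T '' {u | u ⬝ᵥ u = 1}) := by
  refine ⟨∑ i, ∑ j, |T i j|, ?_⟩
  rintro _ ⟨u, hu, rfl⟩
  exact (le_abs_self _).trans (qf_le_abs T hu)

lemma le_mx {n : ℕ} (T : Matrix (Fin n) (Fin n) ℝ) {u : Fin n → ℝ} (hu : u ⬝ᵥ u = 1) :
    qf T u ≤ mx T := le_csSup (mx_bdd T) ⟨u, hu, rfl⟩

lemma unit_nonempty {n : ℕ} (hn : 0 < n) : (({u | u ⬝ᵥ u = 1} : Set (Fin n → ℝ))).Nonempty := by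
  refine ⟨Pi.single ⟨0, hn⟩ 1, ?_⟩
  simp

lemma mx_mono {n N : ℕ} (hn : 0 < n) (h : n ≤ N) (x : ℕ → ℝ) : mx (Tz n x) ≤ mx (Tz N x) := by
  refine csSup_le ((unit_nonempty hn).image _) ?_
  rintro _ ⟨u, hu, rfl⟩
  rw [← qf_pad h x u]
  refine le_mx _ ?_
  rw [dot_pad h]
  exact hu

/-- the sign change -/
def sg (N : ℕ) (g : Fin N → ℝ) : Fin N → ℝ := fun k => (-1) ^ (k : ℕ) * g k

lemma sg_sg {N : ℕ} (g : Fin N → ℝ) : sg N (sg N g) = g := by
  funext k
  unfold sg
  rw [← mul_assoc, ← mul_pow]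
  norm_num

lemma meas_sg (N : ℕ) : Measurable (sg N) :=
  measurable_pi_lambda _ fun k => (measurable_pi_apply k).const_mul _

/-- the sign change as an equivalence -/
def sge (N : ℕ) : (Fin N → ℝ) ≃ᵐ (Fin N → ℝ) where
  toFun := sg N
  invFun := sg N
  left_inv := sg_sg
  right_inv := sg_sg
  measurable_toFun := meas_sg N
  measurable_invFun := meas_sg N

lemma mp_sg (N : ℕ) : MeasurePreserving (sge N) (gN N) (gN N) := by
  have h : ∀ k : Fin N, MeasurePreserving (fun x : ℝ => (-1) ^ (k : ℕ) * x) (gaussianReal 0 1)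
      (gaussianReal 0 1) := by
    intro k
    refine ⟨by fun_prop, ?_⟩
    rw [gaussianReal_map_const_mul]
    congr 1
    · simp
    · apply NNReal.eq
      rw [NNReal.coe_mul]
      simp only [NNReal.coe_one, mul_one]
      show (((-1 : ℝ) ^ (k : ℕ)) ^ 2) = 1
      rw [← pow_mul, mul_comm, pow_mul]
      norm_num
  exact measurePreserving_pi (fun _ : Fin N => gaussianReal 0 1) (fun _ => gaussianReal 0 1) h

lemma Tz_sg {N : ℕ} (g : Fin N → ℝ) : Tz N (fun k => (-1) ^ k * xt g k) = TG N (sg N g) := by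
  unfold TG
  refine Tz_congr fun k hk => ?_
  rw [xt_lt g hk, xt_lt _ hk]
  rfl

/-- measure of an event for the sign changed matrix -/
lemma meas_flip {N : ℕ} (S : Set (Fin N → ℝ)) : gN N {g | sg N g ∈ S} = gN N S :=
  (mp_sg N).measure_preimage_equiv S

lemma TG_meas {N : ℕ} (i j : Fin N) : Measurable fun g : Fin N → ℝ => TG N g i j := by
  have := meas_TG_pow (n := N) 1 i j
  simpa [TG] using this

lemma mx_meas (hE : S_EIG) {N : ℕ} (hN : 0 < N) : Measurable fun g : Fin N → ℝ => mx (TG N g) := by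
  -- Lipschitz in the entries
  have h1 : Continuous fun g : Fin N → ℝ => TG N g := by
    refine continuous_matrix fun i j => ?_
    show Continuous fun g : Fin N → ℝ => xt g (Int.natAbs ((i : ℤ) - (j : ℤ)))
    have : Int.natAbs ((i : ℤ) - (j : ℤ)) < N := by
      have := i.2
      have := j.2
      omega
    simp only [xt_lt _ this]
    exact continuous_apply _
  have h2 : Continuous fun g : Fin N → ℝ => mx (TG N g) := by
    rw [continuous_iff_continuousAt]
    intro g₀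
    have h3 := (hE N (TG N g₀) (Tz_herm _ _) hN).2.2.2.1
    rw [ContinuousAt, tendsto_iff_dist_tendsto_zero]
    have h4 : Tendsto (fun g => ∑ i, ∑ j, |TG N g₀ i j - TG N g i j|) (𝓝 g₀) (𝓝 0) := by
      have h5 : Continuous fun g => ∑ i, ∑ j, |TG N g₀ i j - TG N g i j| := by
        refine continuous_finsetSum _ fun i _ => continuous_finsetSum _ fun j _ => ?_
        exact (continuous_const.sub (h1.matrix_elem i j)).abs
      have h6 := h5.tendsto g₀
      simpa using h6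
    refine squeeze_zero (fun _ => dist_nonneg) (fun g => ?_) h4
    rw [dist_comm, Real.dist_eq]
    exact h3 _
  exact h2.measurable

lemma mx_ge_diag {N : ℕ} (hN : 0 < N) (g : Fin N → ℝ) : g ⟨0, hN⟩ ≤ mx (TG N g) := by
  have h1 := le_mx (TG N g) (u := Pi.single ⟨0, hN⟩ 1) (by simp)
  refine le_trans (le_of_eq ?_) h1
  unfold qf
  simp [TG, Tz, xt_lt g hN]

lemma int_mx_nonneg (_hE : S_EIG) {N : ℕ} (hN : 0 < N)
    (hi : Integrable (fun g : Fin N → ℝ => mx (TG N g)) (gN N)) :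
    0 ≤ ∫ g, mx (TG N g) ∂gN N := by
  have h1 : MeasurePreserving (fun g : Fin N → ℝ => g ⟨0, hN⟩) (gN N) (gaussianReal 0 1) :=
    measurePreserving_eval (fun _ : Fin N => gaussianReal 0 1) _
  have h2 : Integrable (fun g : Fin N → ℝ => g ⟨0, hN⟩) (gN N) :=
    h1.integrable_comp_of_integrable (g := fun x => x) (memLp_id_gaussianReal 1 |>.integrable le_rfl)
  have h3 : ∫ g : Fin N → ℝ, g ⟨0, hN⟩ ∂gN N = 0 := by
    have h4 := integral_map (μ := gN N) h1.measurable.aemeasurable (f := fun x : ℝ => x)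
      (by fun_prop)
    rw [h1.map_eq] at h4
    rw [← h4]
    simp
  rw [← h3]
  exact integral_mono h2 hi fun g => mx_ge_diag hN g

end

end Pool.Agent.K7.H95.TP
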