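import Pool.Agent.K7.H95.TP.Fin1

/-!
MP_0d5435_pr (helper95): assembly, part 2 (the gap event, from the Poisson limit).
-/

set_option autoImplicit false

open MeasureTheory ProbabilityTheory Filter Topology Matrix
open scoped ENNReal NNReal

namespace Pool.Agent.K7.H95.TP

noncomputable section

/-- eigenvalues of the Gaussian Toeplitz matrix -/
def ev (n : ℕ) (g : Fin n → ℝ) (i : Fin n) : ℝ := (Tz_herm n (xt g)).eigenvalues i

/-- counting function -/
def ct (n : ℕ) (g : Fin n → ℝ) (I : Set ℝ) : ℕ := cnt (Tz_herm n (xt g)) I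

lemma ct_eq (n : ℕ) (g : Fin n → ℝ) (I : Set ℝ) [DecidablePred (· ∈ I)] :
    ct n g I = (Finset.univ.filter fun i => ev n g i ∈ I).card := by
  unfold ct
  rw [cnt_eq, Finset.card_filter]
  rfl

lemma ct_zero {n : ℕ} {g : Fin n → ℝ} {I : Set ℝ} (h : ct n g I = 0) (i : Fin n) :
    ev n g i ∉ I := by
  classical
  rw [ct_eq, Finset.card_eq_zero, Finset.filter_eq_empty_iff] at h
  exact h (Finset.mem_univ i)

lemma ct_pos {n : ℕ} {g : Fin n → ℝ} {I : Set ℝ} (h : ct n g I ≠ 0) : ∃ i, ev n g i ∈ I := by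
  classical
  rw [ct_eq, Ne, Finset.card_eq_zero, ← Ne, ← Finset.nonempty_iff_ne_empty] at h
  obtain ⟨i, hi⟩ := h
  exact ⟨i, (Finset.mem_filter.1 hi).2⟩

lemma ct_one {n : ℕ} {g : Fin n → ℝ} {I : Set ℝ} (h : ct n g I = 0 ∨ ct n g I = 1) {i j : Fin n}
    (hij : i ≠ j) (hi : ev n g i ∈ I) : ev n g j ∉ I := by
  classical
  intro hj
  have h1 : ({i, j} : Finset (Fin n)) ⊆ Finset.univ.filter fun i => ev n g i ∈ I := by
    intro k hk
    rw [Finset.mem_insert, Finset.mem_singleton] at hk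
    rw [Finset.mem_filter]
    rcases hk with rfl | rfl
    · exact ⟨Finset.mem_univ _, hi⟩
    · exact ⟨Finset.mem_univ _, hj⟩
  have h2 := Finset.card_le_card h1
  rw [Finset.card_pair hij] at h2
  rw [ct_eq] at h
  omega

lemma ct_Ioc (n : ℕ) (g : Fin n → ℝ) {s t : ℝ} (h : s ≤ t) :
    ct n g (Set.Ioc s t) = ct n g (Set.Ioi s) - ct n g (Set.Ioi t) := by
  classical
  rw [ct_eq, ct_eq, ct_eq]
  have e : (Finset.univ.filter fun i => ev n g i ∈ Set.Ioc s t) =
      (Finset.univ.filter fun i => ev n g i ∈ Set.Ioi s) \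
        (Finset.univ.filter fun i => ev n g i ∈ Set.Ioi t) := by
    ext i
    simp only [Finset.mem_filter, Finset.mem_univ, true_and, Set.mem_Ioc, Finset.mem_sdiff,
      Set.mem_Ioi, not_lt]
  rw [e, Finset.card_sdiff_of_subset]
  intro i hi
  simp only [Finset.mem_filter, Finset.mem_univ, true_and, Set.mem_Ioi] at hi ⊢
  exact lt_of_le_of_lt h hi

lemma meas_ct_Ioi (n : ℕ) (s : ℝ) : Measurable fun g : Fin n → ℝ => ct n g (Set.Ioi s) :=
  s_CNT n s

lemma meas_ct_Ioc (n : ℕ) {s t : ℝ} (h : s ≤ t) :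
    Measurable fun g : Fin n → ℝ => ct n g (Set.Ioc s t) := by
  simp_rw [ct_Ioc n _ h]
  exact (meas_ct_Ioi n s).sub (meas_ct_Ioi n t)

/-- mean measure of half lines -/
def mm (c η s : ℝ) : ℝ := c / η * Real.exp (-η * s)

/-- Poisson weights -/
def poi (m : ℝ) (k : ℕ) : ℝ := Real.exp (-m) * m ^ k / k.factorial

lemma mm_diff {c η : ℝ} (hc : 0 < c) (hη : 0 < η) {s h : ℝ} (hh : 0 ≤ h) :
    0 ≤ mm c η s - mm c η (s + h) ∧
    mm c η s - mm c η (s + h) ≤ h * c * Real.exp (-η * s) := by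
  unfold mm
  have e1 : Real.exp (-η * (s + h)) = Real.exp (-η * s) * Real.exp (-η * h) := by
    rw [← Real.exp_add]; congr 1; ring
  have h1 : 1 - η * h ≤ Real.exp (-η * h) := by linarith [Real.add_one_le_exp (-η * h)]
  have h2 : Real.exp (-η * h) ≤ 1 := by
    rw [Real.exp_le_one_iff]; nlinarith
  have h3 : 0 < Real.exp (-η * s) := Real.exp_pos _
  rw [e1]
  have e2 : c / η * Real.exp (-η * s) - c / η * (Real.exp (-η * s) * Real.exp (-η * h)) =
    c / η * Real.exp (-η * s) * (1 - Real.exp (-η * h)) := by ring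
  rw [e2]
  constructor
  · have : 0 ≤ 1 - Real.exp (-η * h) := by linarith
    positivity
  · calc c / η * Real.exp (-η * s) * (1 - Real.exp (-η * h))
        ≤ c / η * Real.exp (-η * s) * (η * h) :=
          mul_le_mul_of_nonneg_left (by linarith) (by positivity)
      _ = h * c * Real.exp (-η * s) := by field_simp

lemma poi01 {m : ℝ} (hm : 0 ≤ m) : 1 - poi m 0 - poi m 1 ≤ m ^ 2 := by
  unfold poi
  simp only [pow_zero, Nat.factorial_zero, Nat.cast_one, pow_one, Nat.factorial_one, mul_one,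
    div_one]
  have h1 : 1 - m ≤ Real.exp (-m) := by linarith [Real.add_one_le_exp (-m)]
  have h2 : 0 < Real.exp (-m) := Real.exp_pos _
  nlinarith

variable {a b : ℕ → ℝ} {c η : ℝ}

/-- deterministic part of the gap lemma -/
lemma gap_det {n : ℕ} {a b A ε : ℝ} (hb : 0 < b) (hε : 0 < ε) {g : Fin n → ℝ}
    (h1 : ct n g (Set.Ioi (a + b * A)) = 0) (h2 : ct n g (Set.Ioi (a + b * (-A))) ≠ 0)
    (h3 : ∀ j ∈ Finset.range (⌈2 * A / ε⌉₊ + 1), ct n g (Set.Ioc (a + b * (-A - 2 * ε + j * ε))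
      (a + b * (-A - 2 * ε + j * ε + 2 * ε))) = 0 ∨ ct n g (Set.Ioc (a + b * (-A - 2 * ε + j * ε))
      (a + b * (-A - 2 * ε + j * ε + 2 * ε))) = 1) :
    ∃ i₀ : Fin n, (∀ i, ev n g i ≤ ev n g i₀) ∧ a + b * (-A) < ev n g i₀ ∧ ev n g i₀ ≤ a + b * A ∧
      ∀ i, i ≠ i₀ → ev n g i ≤ ev n g i₀ - ε * b := by
  obtain ⟨i1, hi1⟩ := ct_pos h2
  have hne : Nonempty (Fin n) := ⟨i1⟩
  obtain ⟨i₀, -, hi₀⟩ := Finset.exists_max_image (Finset.univ : Finset (Fin n)) (ev n g)
    ⟨i1, Finset.mem_univ _⟩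
  have hmax : ∀ i, ev n g i ≤ ev n g i₀ := fun i => hi₀ i (Finset.mem_univ _)
  have hlo : a + b * (-A) < ev n g i₀ := lt_of_lt_of_le hi1 (hmax i1)
  have hup : ev n g i₀ ≤ a + b * A := by
    have := ct_zero h1 i₀
    simpa using this
  refine ⟨i₀, hmax, hlo, hup, ?_⟩
  set x := (ev n g i₀ - a) / b with hx
  have hxe : ev n g i₀ = a + b * x := by rw [hx]; field_simp; ring
  have hx1 : -A < x := by rw [hx, lt_div_iff₀ hb]; linarith
  have hx2 : x ≤ A := by rw [hx, div_le_iff₀ hb]; linarith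
  have hq : 0 < (x + A) / ε := div_pos (by linarith) hε
  set j := ⌈(x + A) / ε⌉₊ with hj
  have hj1 : (x + A) / ε ≤ j := Nat.le_ceil _
  have hj2 : (j : ℝ) < (x + A) / ε + 1 := Nat.ceil_lt_add_one hq.le
  have hj3 : j ∈ Finset.range (⌈2 * A / ε⌉₊ + 1) := by
    rw [Finset.mem_range, Nat.lt_succ_iff]
    apply Nat.ceil_le_ceil
    apply div_le_div_of_nonneg_right _ hε.le
    linarith
  rw [div_le_iff₀ hε] at hj1
  have hj4 : ((j : ℝ) - 1) * ε < x + A := by
    rw [← lt_div_iff₀ hε]; linarith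
  have h4 := h3 j hj3
  have hmem : ev n g i₀ ∈ Set.Ioc (a + b * (-A - 2 * ε + j * ε))
      (a + b * (-A - 2 * ε + j * ε + 2 * ε)) := by
    rw [hxe]
    constructor
    · have : -A - 2 * ε + j * ε < x := by nlinarith
      nlinarith
    · have : x ≤ -A - 2 * ε + j * ε + 2 * ε := by nlinarith
      nlinarith
  intro i hi
  have h5 := ct_one h4 (Ne.symm hi) hmem
  have h6 : ev n g i ≤ a + b * (-A - 2 * ε + j * ε) := by
    by_contra hc
    push Not at hc
    exact h5 ⟨hc, (hmax i).trans hmem.2⟩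
  have h7 : a + b * (-A - 2 * ε + j * ε) ≤ ev n g i₀ - ε * b := by
    rw [hxe]
    nlinarith
  exact h6.trans h7

lemma real_compl0 {n : ℕ} (s : ℝ) : (gN n).real {g | ct n g (Set.Ioi s) ≠ 0} =
    1 - (gN n).real {g | ct n g (Set.Ioi s) = 0} := by
  have hm : MeasurableSet {g : Fin n → ℝ | ct n g (Set.Ioi s) = 0} :=
    (meas_ct_Ioi n s) (measurableSet_singleton 0)
  have := probReal_compl_eq_one_sub (μ := gN n) hm
  rw [← this]
  rfl

lemma real_compl01 {n : ℕ} {s t : ℝ} (h : s ≤ t) :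
    (gN n).real {g | ¬ (ct n g (Set.Ioc s t) = 0 ∨ ct n g (Set.Ioc s t) = 1)} =
    1 - (gN n).real {g | ct n g (Set.Ioc s t) = 0} - (gN n).real {g | ct n g (Set.Ioc s t) = 1} := by
  have hm0 : MeasurableSet {g : Fin n → ℝ | ct n g (Set.Ioc s t) = 0} :=
    (meas_ct_Ioc n h) (measurableSet_singleton 0)
  have hm1 : MeasurableSet {g : Fin n → ℝ | ct n g (Set.Ioc s t) = 1} :=
    (meas_ct_Ioc n h) (measurableSet_singleton 1)
  have h1 := probReal_compl_eq_one_sub (μ := gN n) (hm0.union hm1)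
  have h2 : (gN n).real ({g | ct n g (Set.Ioc s t) = 0} ∪ {g | ct n g (Set.Ioc s t) = 1}) =
      (gN n).real {g | ct n g (Set.Ioc s t) = 0} + (gN n).real {g | ct n g (Set.Ioc s t) = 1} := by
    refine measureReal_union ?_ hm1
    rw [Set.disjoint_left]
    intro g hg0 hg1
    have e0 : ct n g (Set.Ioc s t) = 0 := hg0
    have e1 : ct n g (Set.Ioc s t) = 1 := hg1
    omega
  have e : {g : Fin n → ℝ | ¬ (ct n g (Set.Ioc s t) = 0 ∨ ct n g (Set.Ioc s t) = 1)} =
      ({g | ct n g (Set.Ioc s t) = 0} ∪ {g | ct n g (Set.Ioc s t) = 1})ᶜ := by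
    ext g; simp
  rw [e, h1, h2]
  ring

/-- **gap**: with probability close to one the two largest eigenvalues are at distance at least
`g₀` -/
lemma gap_event (hE : S_EIG) (hA : S_ANTI) (hb : ∀ n, 0 < b n) (hc : 0 < c) (hη : 0 < η)
    (H1 : ∀ (s : ℝ) (k : ℕ), Tendsto (fun n => (gN n).real {g | ct n g (Set.Ioi (a n + b n * s)) = k})
      atTop (𝓝 (poi (mm c η s) k)))
    (H2 : ∀ (s t : ℝ) (k : ℕ), s < t → Tendsto (fun n => (gN n).real
      {g | ct n g (Set.Ioc (a n + b n * s) (a n + b n * t)) = k})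
      atTop (𝓝 (poi (mm c η s - mm c η t) k))) {κ : ℝ} (hκ : 0 < κ) (hκ1 : κ < 1 / 2) :
    ∃ g₀ : ℝ, 0 < g₀ ∧ ∀ᶠ n : ℕ in atTop, gN n {g | ¬ ∃ i₀ : Fin n, ∀ i, i ≠ i₀ →
      ev n g i ≤ ev n g i₀ - g₀} ≤ ENNReal.ofReal κ := by
  -- choice of `A`
  have hm : Tendsto (fun s : ℝ => mm c η s) atTop (𝓝 0) := by
    unfold mm
    have h1 : Tendsto (fun s : ℝ => -η * s) atTop atBot :=
      tendsto_id.const_mul_atTop_of_neg (by linarith)
    simpa using (Real.tendsto_exp_atBot.comp h1).const_mul (c / η)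
  have hm2 : Tendsto (fun s : ℝ => mm c η (-s)) atTop atTop := by
    unfold mm
    have h1 : Tendsto (fun s : ℝ => -η * -s) atTop atTop := by
      have : (fun s : ℝ => -η * -s) = fun s => η * s := by funext s; ring
      rw [this]
      exact tendsto_id.const_mul_atTop hη
    exact (Real.tendsto_exp_atTop.comp h1).const_mul_atTop (by positivity)
  have hl1 : Tendsto (fun s : ℝ => (1 - poi (mm c η s) 0) + poi (mm c η (-s)) 0) atTop (𝓝 0) := by
    have e : ∀ m, poi m 0 = Real.exp (-m) := fun m => by simp [poi]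
    simp_rw [e]
    have h1 : Tendsto (fun s : ℝ => Real.exp (-(mm c η s))) atTop (𝓝 1) := by
      have := (Real.continuous_exp.tendsto _).comp hm.neg
      simpa [Function.comp_def] using this
    have h2 : Tendsto (fun s : ℝ => Real.exp (-(mm c η (-s)))) atTop (𝓝 0) :=
      Real.tendsto_exp_neg_atTop_nhds_zero.comp hm2
    have h3 := (tendsto_const_nhds (x := (1 : ℝ)).sub h1).add h2
    simpa using h3
  obtain ⟨A, hA1, hA0⟩ := ((hl1.eventually (gt_mem_nhds (by positivity : 0 < κ / 2))).and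
    (eventually_gt_atTop (0 : ℝ))).exists
  -- choice of `ε`
  set D := 4 * c ^ 2 * Real.exp (2 * (η * (A + 2))) with hD
  have hD0 : 0 < D := by positivity
  obtain ⟨ε, hε0, hε1, hε2⟩ : ∃ ε : ℝ, 0 < ε ∧ ε ≤ 1 ∧ (2 * A + 2) * ε * D < κ / 2 := by
    refine ⟨min 1 (κ / 4 / ((2 * A + 2) * D)), by positivity, min_le_left _ _, ?_⟩
    have h1 : min 1 (κ / 4 / ((2 * A + 2) * D)) ≤ κ / 4 / ((2 * A + 2) * D) := min_le_right _ _
    have h2 : 0 < (2 * A + 2) * D := by positivity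
    calc (2 * A + 2) * min 1 (κ / 4 / ((2 * A + 2) * D)) * D
        = ((2 * A + 2) * D) * min 1 (κ / 4 / ((2 * A + 2) * D)) := by ring
      _ ≤ ((2 * A + 2) * D) * (κ / 4 / ((2 * A + 2) * D)) := mul_le_mul_of_nonneg_left h1 h2.le
      _ = κ / 4 := by field_simp
      _ < κ / 2 := by linarith
  set J := ⌈2 * A / ε⌉₊ + 1 with hJ
  have hJr : (J : ℝ) ≤ 2 * A / ε + 2 := by
    rw [hJ]
    push_cast
    have := Nat.ceil_lt_add_one (by positivity : 0 ≤ 2 * A / ε)
    linarith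
  set sj : ℕ → ℝ := fun j => -A - 2 * ε + j * ε with hsj
  set μj : ℕ → ℝ := fun j => mm c η (sj j) - mm c η (sj j + 2 * ε) with hμj
  have hμ0 : ∀ j, 0 ≤ μj j := fun j => (mm_diff hc hη (by positivity)).1
  have hμ1 : ∀ j, μj j ^ 2 ≤ ε ^ 2 * D := by
    intro j
    have h1 := (mm_diff hc hη (s := sj j) (h := 2 * ε) (by positivity)).2
    have h2 : Real.exp (-η * sj j) ≤ Real.exp (η * (A + 2)) := by
      apply Real.exp_le_exp.2
      have : (0 : ℝ) ≤ j * ε := by positivity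
      have h3 : -(A + 2) ≤ sj j := by rw [hsj]; simp only []; linarith
      nlinarith
    have h3 : μj j ≤ 2 * ε * c * Real.exp (η * (A + 2)) :=
      h1.trans (mul_le_mul_of_nonneg_left h2 (by positivity))
    calc μj j ^ 2 ≤ (2 * ε * c * Real.exp (η * (A + 2))) ^ 2 := pow_le_pow_left₀ (hμ0 j) h3 2
      _ = ε ^ 2 * D := by
          rw [hD, two_mul (η * (A + 2)), Real.exp_add]; ring
  -- total limit
  have hsum : (1 - poi (mm c η A) 0) + poi (mm c η (-A)) 0 +
      ∑ j ∈ Finset.range J, (1 - poi (μj j) 0 - poi (μj j) 1) < κ := by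
    have h1 : ∑ j ∈ Finset.range J, (1 - poi (μj j) 0 - poi (μj j) 1) ≤
        ∑ j ∈ Finset.range J, ε ^ 2 * D :=
      Finset.sum_le_sum fun j _ => (poi01 (hμ0 j)).trans (hμ1 j)
    rw [Finset.sum_const, Finset.card_range, nsmul_eq_mul] at h1
    have h2 : (J : ℝ) * (ε ^ 2 * D) ≤ (2 * A + 2) * ε * D := by
      calc (J : ℝ) * (ε ^ 2 * D) ≤ (2 * A / ε + 2) * (ε ^ 2 * D) :=
            mul_le_mul_of_nonneg_right hJr (by positivity)
        _ = (2 * A + 2 * ε) * ε * D := by field_simp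
        _ ≤ (2 * A + 2) * ε * D := by gcongr; linarith
    linarith
  -- convergence of the bad probabilities
  have hconv : Tendsto (fun n => (gN n).real {g | ct n g (Set.Ioi (a n + b n * A)) ≠ 0} +
      (gN n).real {g | ct n g (Set.Ioi (a n + b n * (-A))) = 0} +
      ∑ j ∈ Finset.range J, (gN n).real {g | ¬ (ct n g (Set.Ioc (a n + b n * sj j)
        (a n + b n * (sj j + 2 * ε))) = 0 ∨ ct n g (Set.Ioc (a n + b n * sj j)
        (a n + b n * (sj j + 2 * ε))) = 1)}) atTop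
      (𝓝 ((1 - poi (mm c η A) 0) + poi (mm c η (-A)) 0 +
      ∑ j ∈ Finset.range J, (1 - poi (μj j) 0 - poi (μj j) 1))) := by
    refine (Tendsto.add ?_ (H1 (-A) 0)).add (tendsto_finsetSum _ fun j _ => ?_)
    · simp_rw [real_compl0]
      exact tendsto_const_nhds.sub (H1 A 0)
    · have hle : ∀ n, a n + b n * sj j ≤ a n + b n * (sj j + 2 * ε) := by
        intro n
        have := hb n
        nlinarith
      simp_rw [fun n => real_compl01 (n := n) (hle n)]
      have hlt : sj j < sj j + 2 * ε := by linarith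
      exact (tendsto_const_nhds.sub (H2 _ _ 0 hlt)).sub (H2 _ _ 1 hlt)
  have hev := hconv.eventually (gt_mem_nhds hsum)
  -- the good event
  set bad : ∀ n, Set (Fin n → ℝ) := fun n => {g | ct n g (Set.Ioi (a n + b n * A)) ≠ 0} ∪
      {g | ct n g (Set.Ioi (a n + b n * (-A))) = 0} ∪
      ⋃ j ∈ Finset.range J, {g | ¬ (ct n g (Set.Ioc (a n + b n * sj j)
        (a n + b n * (sj j + 2 * ε))) = 0 ∨ ct n g (Set.Ioc (a n + b n * sj j)
        (a n + b n * (sj j + 2 * ε))) = 1)} with hbad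
  have hbadle : ∀ᶠ n in atTop, (gN n).real (bad n) ≤ κ := by
    filter_upwards [hev] with n hn
    refine le_trans ?_ hn.le
    refine (measureReal_union_le _ _).trans (add_le_add (measureReal_union_le _ _) ?_)
    exact measureReal_biUnion_finset_le _ _
  have hgood : ∀ n (g : Fin n → ℝ), g ∉ bad n → ∃ i₀ : Fin n, (∀ i, ev n g i ≤ ev n g i₀) ∧
      a n + b n * (-A) < ev n g i₀ ∧ ev n g i₀ ≤ a n + b n * A ∧
      ∀ i, i ≠ i₀ → ev n g i ≤ ev n g i₀ - ε * b n := by
    intro n g hg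
    rw [hbad] at hg
    simp only [Set.mem_union, Set.mem_iUnion, not_or, not_exists, Set.mem_ofPred_eq, not_not] at hg
    obtain ⟨⟨g1, g2⟩, g3⟩ := hg
    refine gap_det (hb n) hε0 g1 g2 fun j hj => ?_
    by_contra hcc
    exact g3 j hj (not_or.1 hcc)
  -- lower bound for `b`
  have hblow : ∀ᶠ n in atTop, 1 / (4 * A) ≤ b n := by
    filter_upwards [hbadle, eventually_gt_atTop 0] with n hn hn0
    have hsub : (bad n)ᶜ ⊆ {g | a n + b n * (-A) < mx (TG n g) ∧ mx (TG n g) ≤ a n + b n * A} := by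
      intro g hg
      obtain ⟨i₀, k1, k2, k3, -⟩ := hgood n g hg
      obtain ⟨-, e1, ⟨i1, e2⟩, -⟩ := hE n (TG n g) (Tz_herm n (xt g)) hn0
      have e3 : mx (TG n g) = ev n g i₀ := by
        refine le_antisymm ?_ (e1 i₀)
        rw [← e2]
        exact k1 i1
      show a n + b n * (-A) < mx (TG n g) ∧ mx (TG n g) ≤ a n + b n * A
      rw [e3]
      exact ⟨k2, k3⟩
    have hle : a n + b n * (-A) ≤ a n + b n * A := by have := hb n; nlinarith
    have h1 := (measure_mono hsub).trans (hA n hn0 _ _ hle)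
    have h2 : (gN n).real (bad n)ᶜ ≤ a n + b n * A - (a n + b n * (-A)) := by
      have h3 := ENNReal.toReal_mono ENNReal.ofReal_ne_top h1
      rwa [ENNReal.toReal_ofReal (by linarith)] at h3
    have h4 : 1 ≤ (gN n).real (bad n) + (gN n).real (bad n)ᶜ := by
      have h5 := measureReal_union_le (μ := gN n) (bad n) (bad n)ᶜ
      rw [Set.union_compl_self, probReal_univ] at h5
      exact h5
    rw [div_le_iff₀ (by positivity)]
    nlinarith
  refine ⟨ε * (1 / (4 * A)), by positivity, ?_⟩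
  filter_upwards [hbadle, hblow] with n hn hbn
  have hsub : {g : Fin n → ℝ | ¬ ∃ i₀ : Fin n, ∀ i, i ≠ i₀ → ev n g i ≤ ev n g i₀ -
      ε * (1 / (4 * A))} ⊆ bad n := by
    intro g hg
    by_contra hc
    obtain ⟨i₀, -, -, -, k4⟩ := hgood n g hc
    apply hg
    refine ⟨i₀, fun i hi => (k4 i hi).trans ?_⟩
    have := mul_le_mul_of_nonneg_left hbn hε0.le
    linarith
  refine (measure_mono hsub).trans ?_
  rw [← ofReal_measureReal]
  exact ENNReal.ofReal_le_ofReal hn

end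

end Pool.Agent.K7.H95.TP
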