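import Pool.Agent.K7.H95.TP.Fin2

/-!
MP_0d5435_pr (helper95): assembly, part 3 (increments and the final contradiction).
-/

set_option autoImplicit false

open MeasureTheory ProbabilityTheory Filter Topology Matrix
open scoped ENNReal NNReal

namespace Pool.Agent.K7.H95.TP

noncomputable section

lemma mk {Ω : Type*} [MeasurableSpace Ω] {μ : Measure Ω} [IsProbabilityMeasure μ] {F : Ω → ℝ}
    (hF : Integrable F μ) (h0 : ∀ ω, 0 ≤ F ω) {t r : ℝ} (ht : 0 < t) (h : ∫ ω, F ω ∂μ ≤ t * r) :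
    μ {ω | t < F ω} ≤ ENNReal.ofReal r := by
  have h1 := mul_meas_ge_le_integral_of_nonneg (Eventually.of_forall h0) hF t
  have h2 : μ.real {ω | t ≤ F ω} ≤ r := by
    have h3 : t * μ.real {ω | t ≤ F ω} ≤ t * r := h1.trans h
    exact le_of_mul_le_mul_left h3 ht
  calc μ {ω | t < F ω} ≤ μ {ω | t ≤ F ω} := measure_mono fun ω hω => by
        have h4 : t < F ω := hω
        show t ≤ F ω
        exact h4.le
    _ = ENNReal.ofReal (μ.real {ω | t ≤ F ω}) := by rw [ofReal_measureReal]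
    _ ≤ ENNReal.ofReal r := ENNReal.ofReal_le_ofReal h2

lemma abs_mx_le {n : ℕ} (hn : 0 < n) (T : Matrix (Fin n) (Fin n) ℝ) :
    |mx T| ≤ mx T ⊔ mx (-T) := by
  rw [abs_le']
  refine ⟨le_sup_left, le_trans ?_ le_sup_right⟩
  obtain ⟨u, hu⟩ := unit_nonempty hn
  have h1 := le_mx T hu
  have h2 := le_mx (-T) hu
  have h3 : qf (-T) u = -qf T u := by
    unfold qf; rw [Matrix.neg_mulVec, dotProduct_neg]
  linarith

lemma mx_int (hE : S_EIG) {N : ℕ} (hN : 0 < N)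
    (hi : Integrable (fun g : Fin N → ℝ => mx (TG N g) ⊔ mx (-TG N g)) (gN N)) :
    Integrable (fun g : Fin N → ℝ => mx (TG N g)) (gN N) := by
  refine hi.mono' (mx_meas hE hN).aestronglyMeasurable (Eventually.of_forall fun g => ?_)
  rw [Real.norm_eq_abs]
  exact abs_mx_le hN _

/-- small increments exist -/
lemma incr (hE : S_EIG) (hN : S_NORM) {δ : ℝ} (hδ : 0 < δ) : ∀ᶠ L : ℕ in atTop,
    ∃ m, L ^ 3 ≤ m ∧ m < 2 * L ^ 3 ∧
      ∫ g, mx (TG (2 * L ^ 2 * (m + 1)) g) ∂gN (2 * L ^ 2 * (m + 1)) -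
        ∫ g, mx (TG (2 * L ^ 2 * m) g) ∂gN (2 * L ^ 2 * m) ≤ δ := by
  obtain ⟨C, hC, hNC⟩ := hN
  have h1 : ∀ᶠ x : ℝ in atTop, 4 * C ^ 2 * (Real.log 4 + 5 * Real.log x) < x * δ ^ 2 := by
    have h2 := Real.isLittleO_log_id_atTop.const_mul_left (20 * C ^ 2)
    have h3 := (Asymptotics.isLittleO_const_id_atTop (4 * C ^ 2 * Real.log 4)).add h2
    have h4 := h3.def (by positivity : 0 < δ ^ 2 / 2)
    filter_upwards [h4, eventually_gt_atTop 0] with x hx hx0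
    have h5 := (Real.le_norm_self _).trans hx
    rw [id, Real.norm_of_nonneg hx0.le] at h5
    nlinarith [mul_pos hx0 (pow_pos hδ 2)]
  filter_upwards [tendsto_natCast_atTop_atTop.eventually h1, eventually_ge_atTop 2] with L hL hL2
  by_contra hcon
  push Not at hcon
  set f : ℕ → ℝ := fun m => ∫ g, mx (TG (2 * L ^ 2 * m) g) ∂gN (2 * L ^ 2 * m) with hf
  have hLr : (2 : ℝ) ≤ L := by exact_mod_cast hL2
  have hL0 : (0 : ℝ) < L := by linarith
  have h2 : ∀ i < L ^ 3, δ ≤ f (L ^ 3 + (i + 1)) - f (L ^ 3 + i) := by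
    intro i hi
    exact (hcon (L ^ 3 + i) (by omega) (by omega)).le
  have h3 : ∑ i ∈ Finset.range (L ^ 3), (f (L ^ 3 + (i + 1)) - f (L ^ 3 + i)) =
      f (L ^ 3 + L ^ 3) - f (L ^ 3 + 0) :=
    Finset.sum_range_sub (fun i => f (L ^ 3 + i)) (L ^ 3)
  have h4 : (L : ℝ) ^ 3 * δ ≤ f (L ^ 3 + L ^ 3) - f (L ^ 3 + 0) := by
    rw [← h3]
    have h5 : ∑ i ∈ Finset.range (L ^ 3), δ ≤
        ∑ i ∈ Finset.range (L ^ 3), (f (L ^ 3 + (i + 1)) - f (L ^ 3 + i)) :=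
      Finset.sum_le_sum fun i hi => h2 i (Finset.mem_range.1 hi)
    rw [Finset.sum_const, Finset.card_range, nsmul_eq_mul] at h5
    push_cast at h5
    exact h5
  have hL3 : 8 ≤ L ^ 3 := by
    calc 8 = 2 ^ 3 := by norm_num
      _ ≤ L ^ 3 := Nat.pow_le_pow_left hL2 3
  have hL22 : 4 ≤ L ^ 2 := by
    calc 4 = 2 ^ 2 := by norm_num
      _ ≤ L ^ 2 := Nat.pow_le_pow_left hL2 2
  have hN1 : 2 ≤ 2 * L ^ 2 * (L ^ 3 + 0) := by
    have : 1 ≤ L ^ 2 * (L ^ 3 + 0) := Nat.one_le_iff_ne_zero.2 (by positivity)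
    nlinarith
  have hN2 : 2 ≤ 2 * L ^ 2 * (L ^ 3 + L ^ 3) := by nlinarith
  have h6 : 0 ≤ f (L ^ 3 + 0) :=
    int_mx_nonneg hE (by omega) (mx_int hE (by omega) (hNC _ hN1).1)
  have h7 : f (L ^ 3 + L ^ 3) ≤ C * √(((2 * L ^ 2 * (L ^ 3 + L ^ 3) : ℕ) : ℝ) *
      Real.log ((2 * L ^ 2 * (L ^ 3 + L ^ 3) : ℕ) : ℝ)) := by
    refine le_trans ?_ (hNC _ hN2).2
    refine integral_mono (mx_int hE (by omega) (hNC _ hN2).1) (hNC _ hN2).1 fun g => ?_
    exact le_sup_left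
  have hcast : ((2 * L ^ 2 * (L ^ 3 + L ^ 3) : ℕ) : ℝ) = 4 * (L : ℝ) ^ 5 := by push_cast; ring
  rw [hcast] at h7
  have hlog : Real.log (4 * (L : ℝ) ^ 5) = Real.log 4 + 5 * Real.log L := by
    rw [Real.log_mul (by norm_num) (by positivity), Real.log_pow]; push_cast; ring
  have h8 : (L : ℝ) ^ 3 * δ ≤ C * √(4 * (L : ℝ) ^ 5 * Real.log (4 * (L : ℝ) ^ 5)) := by linarith
  have hlog0 : 0 ≤ Real.log (4 * (L : ℝ) ^ 5) := by
    rw [hlog]
    have := Real.log_nonneg (by linarith : (1 : ℝ) ≤ L)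
    have := Real.log_nonneg (by norm_num : (1 : ℝ) ≤ 4)
    positivity
  have h9 := pow_le_pow_left₀ (by positivity) h8 2
  rw [mul_pow C, Real.sq_sqrt (by positivity), hlog] at h9
  have h10 : ((L : ℝ) ^ 3 * δ) ^ 2 = L ^ 5 * (L * δ ^ 2) := by ring
  rw [h10] at h9
  have h11 : C ^ 2 * (4 * (L : ℝ) ^ 5 * (Real.log 4 + 5 * Real.log L)) =
      L ^ 5 * (4 * C ^ 2 * (Real.log 4 + 5 * Real.log L)) := by ring
  rw [h11] at h9
  have h12 := le_of_mul_le_mul_left h9 (by positivity : (0 : ℝ) < L ^ 5)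
  linarith

/-- Markov for the increment -/
lemma incr_ev (hE : S_EIG) (hN : S_NORM) {n N : ℕ} (hn : 2 ≤ n) (h : n ≤ N) {t r : ℝ} (ht : 0 < t)
    (hle : ∫ g, mx (TG N g) ∂gN N - ∫ g, mx (TG n g) ∂gN n ≤ t * r) :
    gN N {g | t < mx (TG N g) - mx (Tz n (xt g))} ≤ ENNReal.ofReal r := by
  obtain ⟨C, hC, hNC⟩ := hN
  have i1 := mx_int hE (by omega) (hNC N (by omega)).1
  have i2 := mx_int hE (by omega) (hNC n hn).1
  have hr := mp_rs h
  have i3 : Integrable (fun g : Fin N → ℝ => mx (Tz n (xt g))) (gN N) := by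
    simp_rw [Tz_rs h]
    exact hr.integrable_comp_of_integrable i2
  have e1 : ∫ g : Fin N → ℝ, mx (Tz n (xt g)) ∂gN N = ∫ g, mx (TG n g) ∂gN n := by
    simp_rw [Tz_rs h]
    rw [← hr.map_eq, integral_map hr.measurable.aemeasurable
      (by rw [hr.map_eq]; exact i2.aestronglyMeasurable)]
  refine mk (i1.sub i3) (fun g => ?_) ht ?_
  · have := mx_mono (by omega : 0 < n) h (xt g)
    show 0 ≤ mx (TG N g) - mx (Tz n (xt g))
    unfold TG
    linarith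
  · have e2 : ∫ g, (mx (TG N g) - mx (Tz n (xt g))) ∂gN N =
        ∫ g, mx (TG N g) ∂gN N - ∫ g, mx (Tz n (xt g)) ∂gN N := integral_sub i1 i3
    show ∫ g, (mx (TG N g) - mx (Tz n (xt g))) ∂gN N ≤ t * r
    rw [e2, e1]
    exact hle

/-- the final numerical contradiction -/
lemma numeric {C : ℝ} (hC : 0 < C) : ∀ᶠ L : ℕ in atTop, ∀ M : ℕ, L ^ 3 ≤ M → M ≤ 2 * L ^ 3 + 1 →
    √((6 + 1 / 100) * (2 * L ^ 2 * M : ℕ) * Real.log L) +
      30 * √((1 / (15000 * C)) ^ 2) * (10 * C * √((2 * L ^ 2 * M : ℕ) *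
        Real.log (2 * L ^ 2 * M : ℕ))) + 3 * √(20 * (2 * L ^ 2 * M : ℕ)) <
    √((4 / 3 - 1 / 100) * (2 * L ^ 2 * M : ℕ) * Real.log (2 * L ^ 2 * M : ℕ)) := by
  have h1 : ∀ᶠ L : ℕ in atTop, (100000 : ℝ) ≤ Real.log L :=
    (Real.tendsto_log_atTop.comp tendsto_natCast_atTop_atTop).eventually (eventually_ge_atTop _)
  filter_upwards [h1, eventually_ge_atTop 5] with L hL hL5 M hM1 hM2
  have hLr : (5 : ℝ) ≤ L := by exact_mod_cast hL5
  have hL0 : (0 : ℝ) < L := by linarith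
  set ℓ := Real.log L with hℓ
  have hℓ0 : 0 < ℓ := by linarith
  have hMr1 : (L : ℝ) ^ 3 ≤ M := by exact_mod_cast hM1
  have hMr2 : (M : ℝ) ≤ 2 * L ^ 3 + 1 := by exact_mod_cast hM2
  set N : ℝ := ((2 * L ^ 2 * M : ℕ) : ℝ) with hNdef
  have hNe : N = 2 * (L : ℝ) ^ 2 * M := by rw [hNdef]; push_cast; ring
  have hN1 : (L : ℝ) ^ 5 ≤ N := by
    rw [hNe]
    nlinarith [pow_pos hL0 2, pow_pos hL0 5, mul_le_mul_of_nonneg_left hMr1 (pow_pos hL0 2).le]
  have hL3 : (1 : ℝ) ≤ L ^ 3 := one_le_pow₀ (by linarith)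
  have hN2 : N ≤ (L : ℝ) ^ 6 := by
    rw [hNe]
    have h2 : (M : ℝ) ≤ 3 * L ^ 3 - 0 + 0 := by linarith
    have h3 : 2 * (L : ℝ) ^ 2 * M ≤ 2 * (L : ℝ) ^ 2 * (2 * L ^ 3 + 1) :=
      mul_le_mul_of_nonneg_left hMr2 (by positivity)
    have h4 : 2 * (L : ℝ) ^ 2 * (2 * L ^ 3 + 1) = 4 * L ^ 5 + 2 * L ^ 2 := by ring
    have h5 : 2 * (L : ℝ) ^ 2 ≤ L ^ 5 := by
      have : (L : ℝ) ^ 5 = L ^ 2 * L ^ 3 := by ring
      rw [this]
      have h6 : (2 : ℝ) ≤ L ^ 3 := by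
        calc (2 : ℝ) ≤ 5 ^ 3 := by norm_num
          _ ≤ L ^ 3 := pow_le_pow_left₀ (by norm_num) hLr 3
      nlinarith [pow_pos hL0 2]
    have h7 : (L : ℝ) ^ 6 = L * L ^ 5 := by ring
    rw [h7]
    nlinarith [pow_pos hL0 5]
  have hN0 : 0 < N := lt_of_lt_of_le (by positivity) hN1
  have hl1 : 5 * ℓ ≤ Real.log N := by
    have := Real.log_le_log (by positivity) hN1
    rw [Real.log_pow] at this
    push_cast at this
    exact this
  have hl2 : Real.log N ≤ 6 * ℓ := by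
    have := Real.log_le_log hN0 hN2
    rw [Real.log_pow] at this
    push_cast at this
    exact this
  set x := √(N * ℓ) with hx
  have hx0 : 0 < x := Real.sqrt_pos.mpr (by positivity)
  have a1 : √((6 + 1 / 100) * N * ℓ) ≤ 2.452 * x := by
    rw [hx, mul_assoc, Real.sqrt_mul (by norm_num)]
    refine mul_le_mul_of_nonneg_right ?_ (Real.sqrt_nonneg _)
    rw [Real.sqrt_le_left (by norm_num)]
    norm_num
  have a2 : √((1 / (15000 * C)) ^ 2) = 1 / (15000 * C) := Real.sqrt_sq (by positivity)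
  have a3 : √(N * Real.log N) ≤ 2.45 * x := by
    calc √(N * Real.log N) ≤ √(6 * (N * ℓ)) := by
          apply Real.sqrt_le_sqrt
          nlinarith
      _ = √6 * x := by rw [hx, Real.sqrt_mul (by norm_num)]
      _ ≤ 2.45 * x := by
          refine mul_le_mul_of_nonneg_right ?_ hx0.le
          rw [Real.sqrt_le_left (by norm_num)]
          norm_num
  have a4 : √(20 * N) ≤ 0.015 * x := by
    have h2 : 20 * N ≤ (0.015 : ℝ) ^ 2 * (N * ℓ) := by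
      have : (20 : ℝ) ≤ 0.015 ^ 2 * ℓ := by norm_num; linarith
      nlinarith
    calc √(20 * N) ≤ √((0.015 : ℝ) ^ 2 * (N * ℓ)) := Real.sqrt_le_sqrt h2
      _ = 0.015 * x := by
          rw [Real.sqrt_mul (by positivity), Real.sqrt_sq (by norm_num)]
  have a5 : 2.57 * x ≤ √((4 / 3 - 1 / 100) * N * Real.log N) := by
    have h2 : (2.57 : ℝ) ^ 2 * (N * ℓ) ≤ (4 / 3 - 1 / 100) * N * Real.log N := by
      have h3 : (4 / 3 - 1 / 100 : ℝ) * N * (5 * ℓ) ≤ (4 / 3 - 1 / 100) * N * Real.log N :=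
        mul_le_mul_of_nonneg_left hl1 (by positivity)
      have h4 : (2.57 : ℝ) ^ 2 * (N * ℓ) ≤ (4 / 3 - 1 / 100 : ℝ) * N * (5 * ℓ) := by
        have : 0 < N * ℓ := by positivity
        nlinarith
      linarith
    calc 2.57 * x = √((2.57 : ℝ) ^ 2 * (N * ℓ)) := by
          rw [Real.sqrt_mul (by positivity), Real.sqrt_sq (by norm_num)]
      _ ≤ _ := Real.sqrt_le_sqrt h2
  rw [a2]
  have a6 : 30 * (1 / (15000 * C)) * (10 * C * √(N * Real.log N)) = 0.02 * √(N * Real.log N) := by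
    field_simp
    ring
  rw [a6]
  nlinarith

variable {a b : ℕ → ℝ} {c η : ℝ}

/-- **the contradiction** -/
theorem contra (hE : S_EIG) (hN : S_NORM) (hO : S_ONE) (hL : S_LOW) (hW : S_WIN) (hD : S_DET)
    (hA : S_ANTI) (hb : ∀ n, 0 < b n) (hc : 0 < c) (hη : 0 < η)
    (H1 : ∀ (s : ℝ) (k : ℕ), Tendsto (fun n => (gN n).real {g | ct n g (Set.Ioi (a n + b n * s)) = k})
      atTop (𝓝 (poi (mm c η s) k)))
    (H2 : ∀ (s t : ℝ) (k : ℕ), s < t → Tendsto (fun n => (gN n).real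
      {g | ct n g (Set.Ioc (a n + b n * s) (a n + b n * t)) = k})
      atTop (𝓝 (poi (mm c η s - mm c η t) k))) : False := by
  obtain ⟨g₀, hg₀, hgap⟩ := gap_event hE hA hb hc hη H1 H2 (κ := 1 / 10) (by norm_num)
    (by norm_num)
  obtain ⟨C, hC, hNC⟩ := id hN
  set δ : ℝ := min (1 / 1000) ((1 / (15000 * C)) ^ 2) with hδdef
  have hδ0 : 0 < δ := by rw [hδdef]; positivity
  have hδ1 : δ ≤ 1 / 1000 := min_le_left _ _
  have hδ2 : δ ≤ (1 / (15000 * C)) ^ 2 := min_le_right _ _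
  have hinc := incr hE hN (by positivity : 0 < δ * g₀ * (1 / 10))
  have hwin := hW (1 / 100) (by norm_num)
  have hnum := numeric hC
  have hlow := (hL (1 / 100) (by norm_num) (by norm_num)).eventually
    (gt_mem_nhds (by norm_num : (0 : ℝ≥0∞) < ENNReal.ofReal (1 / 10)))
  -- thresholds for `N`
  obtain ⟨N₁, hN₁⟩ := eventually_atTop.1 (hgap.and hlow)
  have hbig : ∀ᶠ L : ℕ in atTop, N₁ ≤ L := eventually_ge_atTop _
  obtain ⟨L, ⟨⟨⟨⟨h1, h2⟩, h3⟩, h4⟩, h5⟩⟩ :=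
    ((((hinc.and hwin).and hnum).and hbig).and (eventually_ge_atTop 2)).exists
  obtain ⟨m, hm1, hm2, hm3⟩ := h1
  have hm1' : L ^ 3 ≤ m + 1 := by omega
  have hm2' : m + 1 ≤ 2 * L ^ 3 + 1 := by omega
  have hw := h2 (m + 1) hm1' hm2'
  have hnu := h3 (m + 1) hm1' hm2'
  have hL3 : 1 ≤ L ^ 3 := Nat.one_le_iff_ne_zero.2 (by positivity)
  have hmpos : 0 < m := by omega
  have hKpos : 0 < 2 * L ^ 2 := by positivity
  have hK8 : 8 ≤ 2 * L ^ 2 := by
    have : 2 ^ 2 ≤ L ^ 2 := Nat.pow_le_pow_left h5 2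
    omega
  set K := 2 * L ^ 2 with hKdef
  set N := K * (m + 1) with hNdef
  have hn2 : 2 ≤ K * m := by nlinarith
  have hnN : K * m ≤ N := by rw [hNdef]; exact Nat.mul_le_mul_left _ (by omega)
  have hN2 : 2 ≤ N := by omega
  have hNL : L ≤ N := by
    rw [hNdef, hKdef]
    nlinarith [Nat.pos_of_ne_zero (by omega : L ≠ 0)]
  have hNr : (2 : ℝ) ≤ N := by exact_mod_cast hN2
  obtain ⟨hgapN, hlowN⟩ := hN₁ N (by omega)
  have hlogN : 0 < Real.log N := Real.log_pos (by linarith)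
  -- the bad events
  set R : ℝ := 10 * C * √(N * Real.log N) with hR
  have hR0 : 0 < R := by rw [hR]; positivity
  set E : ℝ := √(20 * N) with hEdef
  have hE0 : 0 ≤ E := Real.sqrt_nonneg _
  have hE2 : E ^ 2 = 20 * N := Real.sq_sqrt (by positivity)
  set W : ℝ := √((6 + 1 / 100) * (N : ℝ) * Real.log L) with hWdef
  set B1 : Set (Fin N → ℝ) := {g | ¬ ∃ i₀ : Fin N, ∀ i, i ≠ i₀ → ev N g i ≤ ev N g i₀ - g₀}
  set B2 : Set (Fin N → ℝ) := {g | δ * g₀ < mx (TG N g) - mx (Tz (K * m) (xt g))}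
  set B3 : Set (Fin N → ℝ) := {g | ∃ u, BC K (m + 1) u ∧ u ⬝ᵥ u = 1 ∧ W < qf (TG N g) u}
  set B4 : Set (Fin N → ℝ) := {g | R < mx (TG N g) ⊔ mx (-TG N g)}
  set B5 : Set (Fin N → ℝ) := {g | E ^ 2 * N < ∑ i, (∑ j, TG N g i j) ^ 2}
  set B6 : Set (Fin N → ℝ) := {g | mx (TG N g) < √((4 / 3 - 1 / 100) * N * Real.log N)}
  have p1 : gN N B1 ≤ ENNReal.ofReal (1 / 10) := hgapN
  have p2 : gN N B2 ≤ ENNReal.ofReal (1 / 10) := incr_ev hE hN hn2 hnN (by positivity) hm3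
  have p3 : gN N B3 ≤ ENNReal.ofReal (1 / 100) := hw
  have p3' : gN N {g | sg N g ∈ B3} ≤ ENNReal.ofReal (1 / 100) := by
    rw [meas_flip]; exact p3
  have p4 : gN N B4 ≤ ENNReal.ofReal (1 / 10) := by
    refine mk (hNC N hN2).1 (fun g => ?_) hR0 ?_
    · exact (abs_nonneg _).trans (abs_mx_le (by omega) _)
    · refine (hNC N hN2).2.trans (le_of_eq ?_)
      rw [hR]; ring
  have p5 : gN N B5 ≤ ENNReal.ofReal (1 / 10) := by
    obtain ⟨i1, b1⟩ := hO N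
    refine mk i1 (fun g => Finset.sum_nonneg fun i _ => sq_nonneg _) (by rw [hE2]; positivity) ?_
    rw [hE2]
    linarith
  have p5' : gN N {g | sg N g ∈ B5} ≤ ENNReal.ofReal (1 / 10) := by
    rw [meas_flip]; exact p5
  have p6 : gN N B6 ≤ ENNReal.ofReal (1 / 10) := hlowN.le
  -- a good point
  have htot : gN N (B1 ∪ B2 ∪ B3 ∪ {g | sg N g ∈ B3} ∪ B4 ∪ B5 ∪ {g | sg N g ∈ B5} ∪ B6) < 1 := by
    have q : gN N (B1 ∪ B2 ∪ B3 ∪ {g | sg N g ∈ B3} ∪ B4 ∪ B5 ∪ {g | sg N g ∈ B5} ∪ B6) ≤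
        ENNReal.ofReal (1 / 10) + ENNReal.ofReal (1 / 10) + ENNReal.ofReal (1 / 100) +
        ENNReal.ofReal (1 / 100) + ENNReal.ofReal (1 / 10) + ENNReal.ofReal (1 / 10) +
        ENNReal.ofReal (1 / 10) + ENNReal.ofReal (1 / 10) := by
      refine (measure_union_le _ _).trans (add_le_add ?_ p6)
      refine (measure_union_le _ _).trans (add_le_add ?_ p5')
      refine (measure_union_le _ _).trans (add_le_add ?_ p5)
      refine (measure_union_le _ _).trans (add_le_add ?_ p4)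
      refine (measure_union_le _ _).trans (add_le_add ?_ p3')
      refine (measure_union_le _ _).trans (add_le_add ?_ p3)
      exact (measure_union_le _ _).trans (add_le_add p1 p2)
    refine lt_of_le_of_lt q ?_
    rw [← ENNReal.ofReal_add (by norm_num) (by norm_num), ← ENNReal.ofReal_add (by norm_num)
      (by norm_num), ← ENNReal.ofReal_add (by norm_num) (by norm_num), ← ENNReal.ofReal_add
      (by norm_num) (by norm_num), ← ENNReal.ofReal_add (by norm_num) (by norm_num),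
      ← ENNReal.ofReal_add (by norm_num) (by norm_num), ← ENNReal.ofReal_add (by norm_num)
      (by norm_num), ENNReal.ofReal_lt_one]
    norm_num
  obtain ⟨g, hg⟩ : ∃ g, g ∉ B1 ∪ B2 ∪ B3 ∪ {g | sg N g ∈ B3} ∪ B4 ∪ B5 ∪ {g | sg N g ∈ B5} ∪ B6 := by
    by_contra hcon
    push Not at hcon
    rw [Set.eq_univ_of_forall hcon, measure_univ] at htot
    exact lt_irrefl _ htot
  simp only [Set.mem_union, not_or] at hg
  obtain ⟨⟨⟨⟨⟨⟨⟨g1, g2⟩, g3⟩, g3'⟩, g4⟩, g5⟩, g5'⟩, g6⟩ := hg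
  have e1 : ∃ i₀ : Fin N, ∀ i, i ≠ i₀ → ev N g i ≤ ev N g i₀ - g₀ := not_not.1 g1
  have e2 : mx (TG N g) - mx (Tz (K * m) (xt g)) ≤ δ * g₀ := not_lt.1 g2
  have e3 : ∀ u, BC K (m + 1) u → u ⬝ᵥ u = 1 → qf (TG N g) u ≤ W := by
    intro u hu hu1
    by_contra hcon
    exact g3 ⟨u, hu, hu1, not_le.1 hcon⟩
  have e3' : ∀ u, BC K (m + 1) u → u ⬝ᵥ u = 1 → qf (TG N (sg N g)) u ≤ W := by
    intro u hu hu1
    by_contra hcon
    exact g3' ⟨u, hu, hu1, not_le.1 hcon⟩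
  have e4 : mx (TG N g) ⊔ mx (-TG N g) ≤ R := not_lt.1 g4
  have e5 : ∑ i, (∑ j, TG N g i j) ^ 2 ≤ E ^ 2 * N := not_lt.1 g5
  have e5' : ∑ i, (∑ j, TG N (sg N g) i j) ^ 2 ≤ E ^ 2 * N := not_lt.1 g5'
  have e6 : √((4 / 3 - 1 / 100) * N * Real.log N) ≤ mx (TG N g) := not_lt.1 g6
  obtain ⟨i₀, hi₀⟩ := e1
  obtain ⟨-, -, -, -, hbil, hgapv⟩ := hE N (TG N g) (Tz_herm N (xt g)) (by omega)
  obtain ⟨v, hv1, hv2⟩ := hgapv g₀ i₀ hg₀.le hi₀
  have hEven : Even K := ⟨L ^ 2, by rw [hKdef]; ring⟩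
  have hone : (fun k => (1 : ℝ) ^ k * xt g k) = xt g := by funext k; simp
  have hfinal := hD K m hKpos hEven hmpos (xt g) g₀ δ hg₀ hδ0.le hδ1 v hv1 hv2 e2 W R E
    (Real.sqrt_nonneg _) hR0.le hE0
    (by
      intro s hs z hz hz1
      rcases hs with rfl | rfl
      · rw [hone]; exact e3 z hz hz1
      · rw [Tz_sg]; exact e3' z hz hz1)
    (by
      intro u w
      refine (hbil u w).trans ?_
      exact mul_le_mul_of_nonneg_right e4 (by positivity))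
    (by
      intro s hs
      rcases hs with rfl | rfl
      · rw [hone]; exact e5
      · rw [Tz_sg]; exact e5')
  have hmono : 30 * √δ * R ≤ 30 * √((1 / (15000 * C)) ^ 2) * R := by
    have := Real.sqrt_le_sqrt hδ2
    nlinarith
  have hfin : √((4 / 3 - 1 / 100) * N * Real.log N) ≤ W + 30 * √((1 / (15000 * C)) ^ 2) * R + 3 * E :=
    e6.trans (hfinal.trans (by linarith))
  exact absurd hnu (not_lt.2 hfin)

end

end Pool.Agent.K7.H95.TP
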