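import Pool.Agent.K7.H95.TP.Fin3

/-!
MP_0d5435_pr (helper95): assembly, part 4 (transfer to a general probability space).
-/

set_option autoImplicit false

open MeasureTheory ProbabilityTheory Filter Topology Matrix
open scoped ENNReal NNReal

namespace Pool.Agent.K7.H95.TP

noncomputable section

/-- the first `n` variables have the law `gN n` -/
lemma law_vec {Ω : Type*} [MeasurableSpace Ω] {P : Measure Ω} [IsProbabilityMeasure P]
    {X : ℕ → Ω → ℝ} (hX : ∀ k, Measurable (X k)) (hind : iIndepFun X P)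
    (hlaw : ∀ k, P.map (X k) = gaussianReal 0 1) (n : ℕ) :
    P.map (fun ω (i : Fin n) => X i ω) = gN n := by
  have h1 : iIndepFun (fun (i : Fin n) => X i) P := hind.precomp Fin.val_injective
  have h2 := (iIndepFun_iff_map_fun_eq_pi_map (fun i : Fin n => (hX i).aemeasurable)).1 h1
  rw [h2]
  unfold gN
  congr 1
  funext i
  exact hlaw i

/-- transfer of an event -/
lemma law_event {Ω : Type*} [MeasurableSpace Ω] {P : Measure Ω} [IsProbabilityMeasure P]
    {X : ℕ → Ω → ℝ} (hX : ∀ k, Measurable (X k)) (hind : iIndepFun X P)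
    (hlaw : ∀ k, P.map (X k) = gaussianReal 0 1) (n : ℕ) {S : Set (Fin n → ℝ)}
    (hS : MeasurableSet S) : P.real {ω | (fun i : Fin n => X i ω) ∈ S} = (gN n).real S := by
  rw [← law_vec hX hind hlaw n, measureReal_def, measureReal_def]
  have hm : Measurable (fun ω (i : Fin n) => X i ω) := measurable_pi_lambda _ fun i => hX i
  rw [Measure.map_apply hm hS]
  rfl

lemma lint_exp {c η : ℝ} (hc : 0 < c) (hη : 0 < η) (s : ℝ) :
    (volume.withDensity fun x => ENNReal.ofReal (c * Real.exp (-(η * x)))) (Set.Ioi s) =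
      ENNReal.ofReal (mm c η s) := by
  rw [withDensity_apply _ measurableSet_Ioi, ← ofReal_integral_eq_lintegral_ofReal]
  · congr 1
    have h1 : ∀ x : ℝ, c * Real.exp (-(η * x)) = c * Real.exp (-η * x) := fun x => by
      rw [neg_mul]
    simp only [h1]
    rw [integral_const_mul, integral_exp_mul_Ioi (by linarith : -η < 0)]
    unfold mm
    field_simp
  · have h1 : (fun x : ℝ => c * Real.exp (-(η * x))) = fun x => c * Real.exp (-η * x) := by
      funext x; rw [neg_mul]
    rw [h1]
    exact (integrableOn_exp_mul_Ioi (by linarith) s).const_mul c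
  · exact Eventually.of_forall fun x => by positivity

lemma real_Ioi {c η : ℝ} (hc : 0 < c) (hη : 0 < η) (s : ℝ) :
    (volume.withDensity fun x => ENNReal.ofReal (c * Real.exp (-(η * x)))).real (Set.Ioi s) =
      mm c η s := by
  rw [measureReal_def, lint_exp hc hη, ENNReal.toReal_ofReal]
  unfold mm
  positivity

lemma real_Ioc {c η : ℝ} (hc : 0 < c) (hη : 0 < η) {s t : ℝ} (h : s ≤ t) :
    (volume.withDensity fun x => ENNReal.ofReal (c * Real.exp (-(η * x)))).real (Set.Ioc s t) =
      mm c η s - mm c η t := by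
  have e : Set.Ioc s t = Set.Ioi s \ Set.Ioi t := by
    ext x
    simp only [Set.mem_Ioc, Set.mem_sdiff, Set.mem_Ioi, not_lt]
  have h1 : (volume.withDensity fun x => ENNReal.ofReal (c * Real.exp (-(η * x)))) (Set.Ioi s) ≠
      ⊤ := by
    rw [lint_exp hc hη]
    exact ENNReal.ofReal_ne_top
  rw [e, measureReal_sdiff (Set.Ioi_subset_Ioi h) measurableSet_Ioi h1, real_Ioi hc hη,
    real_Ioi hc hη]

end

end Pool.Agent.K7.H95.TP
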