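import Pool.Agent.K7.H95.TP.Fin1

/-!
MP_0d5435_pr (helper95): LOW, part 1 (linear forms of standard Gaussian vectors).
-/

set_option autoImplicit false

open MeasureTheory ProbabilityTheory Filter Topology Matrix
open scoped ENNReal NNReal

namespace Pool.Agent.K7.H95.TP

noncomputable section

/-- linear form -/
def lf {N : ℕ} (c : Fin N → ℝ) (g : Fin N → ℝ) : ℝ := ∑ k, c k * g k

lemma gN_eval_law {N : ℕ} (k : Fin N) : HasLaw (fun g : Fin N → ℝ => g k) (gaussianReal 0 1) (gN N) :=
  (measurePreserving_eval (fun _ : Fin N => gaussianReal 0 1) k).hasLaw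

lemma gN_gauss {N : ℕ} : HasGaussianLaw (fun g : Fin N → ℝ => g) (gN N) := by
  have h1 : iIndepFun (fun (k : Fin N) (g : Fin N → ℝ) => g k) (gN N) :=
    iIndepFun_pi (μ := fun _ : Fin N => gaussianReal 0 1) (X := fun _ x => x)
      (fun _ => aemeasurable_id)
  exact iIndepFun.hasGaussianLaw (fun k => (gN_eval_law k).hasGaussianLaw) h1

lemma gN_indep {N : ℕ} : iIndepFun (fun (k : Fin N) (g : Fin N → ℝ) => g k) (gN N) :=
  iIndepFun_pi (μ := fun _ : Fin N => gaussianReal 0 1) (X := fun _ x => x)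
    (fun _ => aemeasurable_id)

lemma gN_memLp {N : ℕ} (k : Fin N) : MemLp (fun g : Fin N → ℝ => g k) 2 (gN N) :=
  (gN_eval_law k).hasGaussianLaw.memLp_two

lemma gN_mean {N : ℕ} (k : Fin N) : ∫ g, g k ∂gN N = 0 := by
  rw [(gN_eval_law k).integral_eq, integral_id_gaussianReal]

lemma gN_cov {N : ℕ} (k l : Fin N) :
    cov[fun g : Fin N → ℝ => g k, fun g => g l; gN N] = if k = l then 1 else 0 := by
  by_cases h : k = l
  · subst h
    rw [if_pos rfl, covariance_self (gN_eval_law k).aemeasurable, (gN_eval_law k).variance_eq,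
      variance_id_gaussianReal]
    rfl
  · rw [if_neg h]
    exact (gN_indep.indepFun h).covariance_eq_zero (gN_memLp k) (gN_memLp l)

/-- the vector of linear forms, as a continuous linear map -/
def lfL {N n : ℕ} (c : Fin n → Fin N → ℝ) : (Fin N → ℝ) →L[ℝ] (Fin n → ℝ) :=
  LinearMap.toContinuousLinearMap
    { toFun := fun g j => lf (c j) g
      map_add' := fun g h => by
        funext j
        simp only [lf, Pi.add_apply, mul_add, Finset.sum_add_distrib]
      map_smul' := fun r g => by
        funext j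
        simp only [lf, Pi.smul_apply, smul_eq_mul, RingHom.id_apply, Finset.mul_sum]
        exact Finset.sum_congr rfl fun k _ => by ring }

lemma lf_gauss {N n : ℕ} (c : Fin n → Fin N → ℝ) :
    HasGaussianLaw (fun (g : Fin N → ℝ) (j : Fin n) => lf (c j) g) (gN N) :=
  gN_gauss.map_fun (lfL c)

lemma lf_gauss1 {N : ℕ} (c : Fin N → ℝ) : HasGaussianLaw (lf c) (gN N) :=
  (lf_gauss (fun _ : Fin 1 => c)).eval 0

lemma lf_cov {N : ℕ} (c d : Fin N → ℝ) : cov[lf c, lf d; gN N] = ∑ k, c k * d k := by
  have h1 : cov[fun g => ∑ k, c k * g k, fun g => ∑ k, d k * g k; gN N] =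
      ∑ k, ∑ l, cov[fun g => c k * g k, fun g => d l * g l; gN N] :=
    covariance_fun_sum_fun_sum (fun k => (gN_memLp k).const_mul _)
      (fun k => (gN_memLp k).const_mul _)
  have h2 : cov[lf c, lf d; gN N] = cov[fun g => ∑ k, c k * g k, fun g => ∑ k, d k * g k; gN N] :=
    rfl
  rw [h2, h1]
  refine Finset.sum_congr rfl fun k _ => ?_
  have h3 : ∀ l, cov[fun g : Fin N → ℝ => c k * g k, fun g => d l * g l; gN N] =
      if k = l then c k * d l else 0 := by
    intro l
    rw [covariance_const_mul_left, covariance_const_mul_right, gN_cov]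
    split_ifs <;> ring
  simp only [h3, Finset.sum_ite_eq, Finset.mem_univ, if_true]

lemma lf_mean {N : ℕ} (c : Fin N → ℝ) : ∫ g, lf c g ∂gN N = 0 := by
  unfold lf
  rw [integral_finset_sum _ fun k _ => ((gN_memLp k).integrable (by norm_num)).const_mul _]
  simp [integral_const_mul, gN_mean]

/-- the law of a linear form -/
lemma lf_law {N : ℕ} (c : Fin N → ℝ) {v : ℝ≥0} (hv : ∑ k, c k ^ 2 = v) :
    (gN N).map (lf c) = gaussianReal 0 v := by
  rw [(lf_gauss1 c).map_eq_gaussianReal, lf_mean]
  congr 1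
  rw [← covariance_self (lf_gauss1 c).aemeasurable, lf_cov]
  have h1 : ∑ k, c k * c k = (v : ℝ) := by
    rw [← hv]
    exact Finset.sum_congr rfl fun k _ => by ring
  rw [h1]
  exact Real.toNNReal_coe

/-- orthogonal linear forms are independent -/
lemma lf_indep {N n : ℕ} (c : Fin n → Fin N → ℝ) (h : ∀ i j, i ≠ j → ∑ k, c i k * c j k = 0) :
    iIndepFun (fun j => lf (c j)) (gN N) :=
  (lf_gauss c).iIndepFun_of_covariance_eq_zero fun i j hij => by
    have h1 := lf_cov (c i) (c j)
    rw [h i j hij] at h1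
    exact h1

end

end Pool.Agent.K7.H95.TP
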