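import Pool.Agent.K7.H95.TP.Low1

/-!
MP_0d5435_pr (helper95): LOW, part 2 (tails of Gaussian linear forms, and maxima).
-/

set_option autoImplicit false

open MeasureTheory ProbabilityTheory Filter Topology Matrix
open scoped ENNReal NNReal

namespace Pool.Agent.K7.H95.TP

noncomputable section

lemma lf_cont {N : ℕ} (c : Fin N → ℝ) : Continuous (lf c) := by
  unfold lf
  fun_prop

lemma lf_smul {N : ℕ} (r : ℝ) (c g : Fin N → ℝ) : lf (fun k => r * c k) g = r * lf c g := by
  unfold lf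
  rw [Finset.mul_sum]
  exact Finset.sum_congr rfl fun k _ => by ring

lemma lf_neg {N : ℕ} (c g : Fin N → ℝ) : lf (fun k => - c k) g = - lf c g := by
  unfold lf
  rw [← Finset.sum_neg_distrib]
  exact Finset.sum_congr rfl fun k _ => by ring

/-- lower bound for the tail of the standard Gaussian -/
lemma gauss_tail_ge {x : ℝ} (hx : 0 ≤ x) :
    Real.exp (-(x + 1) ^ 2 / 2) / √(2 * Real.pi) ≤ (gaussianReal 0 1).real (Set.Ici x) := by
  have h1 : (gaussianReal 0 1).real (Set.Icc x (x + 1)) ≤ (gaussianReal 0 1).real (Set.Ici x) :=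
    measureReal_mono Set.Icc_subset_Ici_self
  refine le_trans ?_ h1
  rw [measureReal_def, gaussianReal_apply_eq_integral 0 one_ne_zero, ENNReal.toReal_ofReal
    (setIntegral_nonneg measurableSet_Icc fun y _ => gaussianPDFReal_nonneg 0 1 y)]
  have h2 : ∫ y in Set.Icc x (x + 1), Real.exp (-(x + 1) ^ 2 / 2) / √(2 * Real.pi) =
      Real.exp (-(x + 1) ^ 2 / 2) / √(2 * Real.pi) := by
    rw [setIntegral_const, measureReal_def, Real.volume_Icc]
    simp
  rw [← h2]
  refine setIntegral_mono_on ?_ ?_ measurableSet_Icc ?_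
  · exact integrableOn_const (by rw [Real.volume_Icc]; exact ENNReal.ofReal_ne_top)
  · exact (integrable_gaussianPDFReal 0 1).integrableOn
  · intro y hy
    rw [gaussianPDFReal]
    simp only [NNReal.coe_one, mul_one, sub_zero]
    rw [div_eq_inv_mul]
    refine mul_le_mul_of_nonneg_left (Real.exp_le_exp.2 ?_) (by positivity)
    have h3 : y ^ 2 ≤ (x + 1) ^ 2 := by
      have h4 : 0 ≤ y := hx.trans hy.1
      exact pow_le_pow_left₀ h4 hy.2 2
    linarith

/-- tail of a linear form, lower bound -/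
lemma lf_tail_ge {N : ℕ} (c : Fin N → ℝ) {σ x : ℝ} (hσ : 0 < σ) (hc : ∑ k, c k ^ 2 = σ ^ 2)
    (hx : 0 ≤ x) :
    Real.exp (-(x + 1) ^ 2 / 2) / √(2 * Real.pi) ≤ (gN N).real {g | σ * x ≤ lf c g} := by
  have h1 : {g | σ * x ≤ lf c g} = lf (fun k => σ⁻¹ * c k) ⁻¹' (Set.Ici x) := by
    ext g
    simp only [Set.mem_ofPred_eq, Set.mem_preimage, Set.mem_Ici, lf_smul]
    rw [← div_eq_inv_mul, le_div_iff₀ hσ, mul_comm]
  have h2 : (gN N).map (lf (fun k => σ⁻¹ * c k)) = gaussianReal 0 1 := by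
    refine lf_law _ ?_
    simp only [mul_pow, ← Finset.mul_sum, hc, NNReal.coe_one]
    field_simp
  rw [h1, measureReal_def, ← Measure.map_apply (lf_cont _).measurable measurableSet_Ici, h2]
  exact gauss_tail_ge hx

/-- tail of a linear form, upper bound -/
lemma lf_tail_le {N : ℕ} (c : Fin N → ℝ) {v s : ℝ} (hv : 0 < v) (hc : ∑ k, c k ^ 2 ≤ v)
    (hs : 0 ≤ s) :
    (gN N).real {g | s ≤ lf c g} ≤ Real.exp (-s ^ 2 / (2 * v)) := by
  have h0 : 0 ≤ ∑ k, c k ^ 2 := Finset.sum_nonneg fun k _ => sq_nonneg _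
  have h2 : (gN N).map (lf c) = gaussianReal 0 ⟨∑ k, c k ^ 2, h0⟩ := lf_law _ rfl
  have h3 : HasSubgaussianMGF (lf c) ⟨v, hv.le⟩ (gN N) := by
    constructor
    · intro t
      have h4 : Integrable (fun x => Real.exp (t * x)) ((gN N).map (lf c)) := by
        rw [h2]
        exact integrable_exp_mul_gaussianReal t
      exact (integrable_map_measure (by fun_prop) (lf_cont _).measurable.aemeasurable).1 h4
    · intro t
      rw [mgf_gaussianReal h2 t]
      refine Real.exp_le_exp.2 ?_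
      have h5 := mul_le_mul_of_nonneg_right hc (sq_nonneg t)
      show 0 * t + (∑ k, c k ^ 2) * t ^ 2 / 2 ≤ v * t ^ 2 / 2
      linarith
  exact h3.measure_ge_le hs

/-- maxima of orthogonal linear forms -/
lemma lf_max {N n : ℕ} (c : Fin n → Fin N → ℝ) (h : ∀ i j, i ≠ j → ∑ k, c i k * c j k = 0)
    {σ x : ℝ} (hσ : 0 < σ) (hc : ∀ j, ∑ k, c j k ^ 2 = σ ^ 2) (hx : 0 ≤ x) :
    (gN N).real {g | ∀ j, lf (c j) g < σ * x} ≤
      Real.exp (-(n * (Real.exp (-(x + 1) ^ 2 / 2) / √(2 * Real.pi)))) := by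
  have h1 : {g | ∀ j, lf (c j) g < σ * x} = ⋂ j ∈ (Finset.univ : Finset (Fin n)),
      lf (c j) ⁻¹' (Set.Iio (σ * x)) := by
    ext g
    simp only [Set.mem_ofPred_eq, Set.mem_iInter, Finset.mem_univ, Set.mem_preimage, Set.mem_Iio,
      forall_const]
  rw [h1, measureReal_def, (lf_indep c h).measure_inter_preimage_eq_mul Finset.univ
    (fun j _ => measurableSet_Iio), ENNReal.toReal_prod]
  set p := Real.exp (-(x + 1) ^ 2 / 2) / √(2 * Real.pi) with hp
  have h2 : ∀ j ∈ (Finset.univ : Finset (Fin n)),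
      ((gN N) (lf (c j) ⁻¹' (Set.Iio (σ * x)))).toReal ≤ Real.exp (-p) := by
    intro j _
    have h3 : lf (c j) ⁻¹' (Set.Iio (σ * x)) = {g | σ * x ≤ lf (c j) g}ᶜ := by
      ext g
      simp only [Set.mem_preimage, Set.mem_Iio, Set.mem_compl_iff, Set.mem_ofPred_eq, not_le]
    have h4 : MeasurableSet {g | σ * x ≤ lf (c j) g} :=
      measurableSet_le measurable_const (lf_cont _).measurable
    have h5 := lf_tail_ge (c j) hσ (hc j) hx
    have h6 : ((gN N) (lf (c j) ⁻¹' (Set.Iio (σ * x)))).toReal =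
        1 - (gN N).real {g | σ * x ≤ lf (c j) g} := by
      rw [h3]
      exact probReal_compl_eq_one_sub h4
    rw [h6]
    have h7 := Real.add_one_le_exp (-p)
    linarith
  calc ∏ j, ((gN N) (lf (c j) ⁻¹' (Set.Iio (σ * x)))).toReal ≤ ∏ _j : Fin n, Real.exp (-p) :=
        Finset.prod_le_prod (fun _ _ => ENNReal.toReal_nonneg) h2
    _ = Real.exp (-(n * p)) := by
        rw [Finset.prod_const, Finset.card_univ, Fintype.card_fin, ← Real.exp_nat_mul]
        congr 1
        ring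

end

end Pool.Agent.K7.H95.TP
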