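import Pool.Agent.K7.H95.TP.Low2

/-!
MP_0d5435_pr (helper95): LOW, part 3 (trigonometric test vectors).
-/

set_option autoImplicit false

open MeasureTheory ProbabilityTheory Filter Topology Matrix
open scoped ENNReal NNReal

namespace Pool.Agent.K7.H95.TP

noncomputable section

lemma sum_diff_range (f : ℕ → ℝ) (N : ℕ) :
    ∑ i ∈ Finset.range N, ∑ j ∈ Finset.range N, f (Int.natAbs ((i : ℤ) - (j : ℤ))) =
      2 * ∑ k ∈ Finset.range N, ((N : ℝ) - k) * f k - N * f 0 := by
  induction N with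
  | zero => simp
  | succ N ih =>
    have h1 : ∑ i ∈ Finset.range N, f (Int.natAbs ((i : ℤ) - ((N : ℕ) : ℤ))) =
        ∑ k ∈ Finset.range N, f (k + 1) := by
      rw [← Finset.sum_range_reflect]
      refine Finset.sum_congr rfl fun i hi => ?_
      rw [Finset.mem_range] at hi
      congr 1
      omega
    have h2 : ∑ j ∈ Finset.range N, f (Int.natAbs (((N : ℕ) : ℤ) - (j : ℤ))) =
        ∑ k ∈ Finset.range N, f (k + 1) := by
      rw [← h1]
      refine Finset.sum_congr rfl fun i hi => ?_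
      congr 1
      omega
    have h3 : ∑ k ∈ Finset.range (N + 1), f k = ∑ k ∈ Finset.range N, f (k + 1) + f 0 :=
      Finset.sum_range_succ' f N
    have h4 : ∑ k ∈ Finset.range (N + 1), (((N + 1 : ℕ) : ℝ) - k) * f k =
        ∑ k ∈ Finset.range N, ((N : ℝ) - k) * f k + ∑ k ∈ Finset.range (N + 1), f k := by
      rw [Finset.sum_range_succ, Finset.sum_range_succ (f := f), ← add_assoc, ← Finset.sum_add_distrib]
      congr 1
      · refine Finset.sum_congr rfl fun k _ => ?_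
        push_cast
        ring
      · push_cast
        ring
    rw [Finset.sum_range_succ]
    simp only [Finset.sum_range_succ (n := N) (f := fun j => f (Int.natAbs ((_ : ℤ) - (j : ℤ))))]
    rw [Finset.sum_add_distrib, ih, h1, h2, h4, h3]
    simp only [sub_self, Int.natAbs_zero]
    push_cast
    ring

lemma sum_diff_fin (f : ℕ → ℝ) (N : ℕ) :
    ∑ i : Fin N, ∑ j : Fin N, f (Int.natAbs ((i : ℤ) - (j : ℤ))) =
      2 * ∑ k ∈ Finset.range N, ((N : ℝ) - k) * f k - N * f 0 := by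
  rw [← sum_diff_range, Finset.sum_range]
  refine Finset.sum_congr rfl fun i _ => ?_
  rw [Finset.sum_range]

/-- scaling -/
lemma qf_le_mx {n : ℕ} (T : Matrix (Fin n) (Fin n) ℝ) (u : Fin n → ℝ) :
    qf T u ≤ mx T * (u ⬝ᵥ u) := by
  have h0 : 0 ≤ u ⬝ᵥ u := by
    rw [dotProduct]
    exact Finset.sum_nonneg fun i _ => mul_self_nonneg _
  rcases h0.eq_or_lt with h | h
  · have hu : u = 0 := dotProduct_self_eq_zero.1 h.symm
    subst hu
    simp [qf]
  · set r := √(u ⬝ᵥ u) with hr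
    have hr0 : 0 < r := Real.sqrt_pos.2 h
    have hr2 : r * r = u ⬝ᵥ u := Real.mul_self_sqrt h0
    have h1 : (r⁻¹ • u) ⬝ᵥ (r⁻¹ • u) = 1 := by
      rw [smul_dotProduct, dotProduct_smul, smul_eq_mul, smul_eq_mul, ← hr2]
      field_simp
    have h2 := le_mx T h1
    have h3 : qf T (r⁻¹ • u) = r⁻¹ * r⁻¹ * qf T u := by
      unfold qf
      rw [mulVec_smul, smul_dotProduct, dotProduct_smul, smul_eq_mul, smul_eq_mul, mul_assoc]
    rw [h3] at h2
    calc qf T u = (r * r) * (r⁻¹ * r⁻¹ * qf T u) := by field_simp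
      _ ≤ (r * r) * mx T := mul_le_mul_of_nonneg_left h2 (by positivity)
      _ = mx T * (u ⬝ᵥ u) := by rw [hr2, mul_comm]

lemma qf_sum {n : ℕ} (x : ℕ → ℝ) (u : Fin n → ℝ) :
    qf (Tz n x) u = ∑ i : Fin n, ∑ j : Fin n, u i * (x (Int.natAbs ((i : ℤ) - (j : ℤ))) * u j) := by
  unfold qf
  simp only [dotProduct, mulVec, Tz, Matrix.of_apply, Finset.mul_sum]

/-- the trigonometric lower bound -/
lemma mx_ge_trig {N : ℕ} (hN : 0 < N) (x : ℕ → ℝ) (θ : ℝ) :
    2 * ∑ k ∈ Finset.range N, (1 - (k : ℝ) / N) * (x k * Real.cos (k * θ)) - x 0 ≤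
      mx (Tz N x) := by
  have h1 := qf_le_mx (Tz N x) (fun i : Fin N => Real.cos ((i : ℕ) * θ))
  have h2 := qf_le_mx (Tz N x) (fun i : Fin N => Real.sin ((i : ℕ) * θ))
  rw [qf_sum] at h1 h2
  have h3 : ((fun i : Fin N => Real.cos ((i : ℕ) * θ)) ⬝ᵥ fun i : Fin N => Real.cos ((i : ℕ) * θ)) +
      ((fun i : Fin N => Real.sin ((i : ℕ) * θ)) ⬝ᵥ fun i : Fin N => Real.sin ((i : ℕ) * θ)) = N := by
    rw [dotProduct, dotProduct, ← Finset.sum_add_distrib]
    have : ∀ i : Fin N, Real.cos ((i : ℕ) * θ) * Real.cos ((i : ℕ) * θ) +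
        Real.sin ((i : ℕ) * θ) * Real.sin ((i : ℕ) * θ) = 1 := by
      intro i
      have := Real.cos_sq_add_sin_sq ((i : ℕ) * θ)
      linarith [this, sq (Real.cos ((i : ℕ) * θ)), sq (Real.sin ((i : ℕ) * θ))]
    simp [this]
  have h4 : ∀ i j : Fin N, Real.cos ((i : ℕ) * θ) * (x (Int.natAbs ((i : ℤ) - (j : ℤ))) *
      Real.cos ((j : ℕ) * θ)) + Real.sin ((i : ℕ) * θ) * (x (Int.natAbs ((i : ℤ) - (j : ℤ))) *
      Real.sin ((j : ℕ) * θ)) = (fun k : ℕ => x k * Real.cos (k * θ))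
        (Int.natAbs ((i : ℤ) - (j : ℤ))) := by
    intro i j
    have e1 : Real.cos (((Int.natAbs ((i : ℤ) - (j : ℤ)) : ℕ) : ℝ) * θ) =
        Real.cos ((i : ℕ) * θ - (j : ℕ) * θ) := by
      have e2 : (((Int.natAbs ((i : ℤ) - (j : ℤ)) : ℕ) : ℝ)) = |((i : ℕ) : ℝ) - ((j : ℕ) : ℝ)| := by
        rw [Nat.cast_natAbs]
        push_cast
        rfl
      rw [e2, ← sub_mul]
      rcases abs_cases (((i : ℕ) : ℝ) - ((j : ℕ) : ℝ)) with ⟨h, _⟩ | ⟨h, _⟩
      · rw [h]
      · rw [h, neg_mul, Real.cos_neg]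
    simp only
    rw [e1, Real.cos_sub]
    ring
  have h5 : (∑ i : Fin N, ∑ j : Fin N, Real.cos ((i : ℕ) * θ) * (x (Int.natAbs ((i : ℤ) - (j : ℤ))) *
      Real.cos ((j : ℕ) * θ))) + (∑ i : Fin N, ∑ j : Fin N, Real.sin ((i : ℕ) * θ) *
      (x (Int.natAbs ((i : ℤ) - (j : ℤ))) * Real.sin ((j : ℕ) * θ))) =
      2 * ∑ k ∈ Finset.range N, ((N : ℝ) - k) * (x k * Real.cos (k * θ)) - N * x 0 := by
    rw [← Finset.sum_add_distrib]
    simp only [← Finset.sum_add_distrib, h4]
    rw [sum_diff_fin (fun k : ℕ => x k * Real.cos (k * θ)) N]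
    simp
  have h6 : 2 * ∑ k ∈ Finset.range N, ((N : ℝ) - k) * (x k * Real.cos (k * θ)) - N * x 0 ≤
      mx (Tz N x) * N := by
    rw [← h5]
    calc _ ≤ _ := add_le_add h1 h2
      _ = mx (Tz N x) * N := by rw [← mul_add, h3]
  have hN' : (0 : ℝ) < N := by exact_mod_cast hN
  have h7 : 2 * ∑ k ∈ Finset.range N, (1 - (k : ℝ) / N) * (x k * Real.cos (k * θ)) - x 0 =
      (2 * ∑ k ∈ Finset.range N, ((N : ℝ) - k) * (x k * Real.cos (k * θ)) - N * x 0) / N := by
    rw [sub_div, mul_div_assoc, Finset.sum_div]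
    congr 1
    · congr 1
      refine Finset.sum_congr rfl fun k _ => ?_
      field_simp
    · field_simp
  rw [h7, div_le_iff₀ hN']
  exact h6

/-- sum of cosines over a period -/
lemma sum_cos {B m : ℕ} (hm : 0 < m) (hmB : m < B) :
    ∑ s ∈ Finset.range B, Real.cos (s * (2 * Real.pi * m / B)) = 0 := by
  have hB : (0 : ℝ) < B := by exact_mod_cast hm.trans hmB
  set φ : ℝ := 2 * Real.pi * m / B with hφ
  have h1 : ∀ n : ℕ, 2 * Real.sin (φ / 2) * ∑ s ∈ Finset.range n, Real.cos (s * φ) =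
      Real.sin ((n - 1 / 2) * φ) + Real.sin (φ / 2) := by
    intro n
    induction n with
    | zero =>
      have : ((0 : ℕ) : ℝ) - 1 / 2 = -(1 / 2) := by norm_num
      rw [this]
      simp only [Finset.range_zero, Finset.sum_empty, mul_zero]
      rw [show -(1 / 2 : ℝ) * φ = -(φ / 2) by ring, Real.sin_neg]
      ring
    | succ n ih =>
      rw [Finset.sum_range_succ, mul_add, ih]
      have e1 : (((n + 1 : ℕ) : ℝ) - 1 / 2) * φ = n * φ + φ / 2 := by push_cast; ring
      have e2 : ((n : ℝ) - 1 / 2) * φ = n * φ - φ / 2 := by ring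
      rw [e1, e2, Real.sin_add, Real.sin_sub]
      ring
  have h2 := h1 B
  have h3 : ((B : ℝ) - 1 / 2) * φ = -(φ / 2) + m * (2 * Real.pi) := by
    rw [hφ]
    field_simp
    ring
  rw [h3, Real.sin_add_nat_mul_two_pi, Real.sin_neg] at h2
  have h4 : Real.sin (φ / 2) ≠ 0 := by
    have h5 : 0 < φ / 2 := by positivity
    have h6 : φ / 2 < Real.pi := by
      rw [hφ]
      have h7 : (m : ℝ) < B := by exact_mod_cast hmB
      rw [div_div, div_lt_iff₀ (by positivity)]
      nlinarith [Real.pi_pos]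
    exact (Real.sin_pos_of_pos_of_lt_pi h5 h6).ne'
  have h8 : 2 * Real.sin (φ / 2) * ∑ s ∈ Finset.range B, Real.cos (s * φ) = 0 := by
    rw [h2]; ring
  rcases mul_eq_zero.1 h8 with h | h
  · exact absurd h (mul_ne_zero two_ne_zero h4)
  · exact h

/-- orthogonality of cosines -/
lemma orth {B j l : ℕ} (hj : 0 < j) (hl : 0 < l) (hj2 : 2 * j < B) (hl2 : 2 * l < B) :
    ∑ s ∈ Finset.range B, Real.cos (s * (2 * Real.pi * j / B)) *
      Real.cos (s * (2 * Real.pi * l / B)) = if j = l then (B : ℝ) / 2 else 0 := by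
  have h1 : ∀ s : ℕ, Real.cos (s * (2 * Real.pi * j / B)) * Real.cos (s * (2 * Real.pi * l / B)) =
      (Real.cos (s * (2 * Real.pi * j / B) - s * (2 * Real.pi * l / B)) +
        Real.cos (s * (2 * Real.pi * (j + l : ℕ) / B))) / 2 := by
    intro s
    have e : (s : ℝ) * (2 * Real.pi * (j + l : ℕ) / B) =
        s * (2 * Real.pi * j / B) + s * (2 * Real.pi * l / B) := by
      push_cast; ring
    rw [e, Real.cos_sub, Real.cos_add]
    ring
  simp only [h1]
  rw [← Finset.sum_div, Finset.sum_add_distrib, sum_cos (by omega : 0 < j + l) (by omega), add_zero]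
  split_ifs with h
  · subst h
    simp
  · rcases lt_or_gt_of_ne h with hlt | hlt
    · have h2 := sum_cos (B := B) (m := l - j) (by omega) (by omega)
      have h3 : ∀ s : ℕ, Real.cos (s * (2 * Real.pi * j / B) - s * (2 * Real.pi * l / B)) =
          Real.cos (s * (2 * Real.pi * (l - j : ℕ) / B)) := by
        intro s
        rw [← Real.cos_neg]
        congr 1
        rw [Nat.cast_sub hlt.le]
        ring
      simp only [h3, h2, zero_div]
    · have h2 := sum_cos (B := B) (m := j - l) (by omega) (by omega)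
      have h3 : ∀ s : ℕ, Real.cos (s * (2 * Real.pi * j / B) - s * (2 * Real.pi * l / B)) =
          Real.cos (s * (2 * Real.pi * (j - l : ℕ) / B)) := by
        intro s
        congr 1
        rw [Nat.cast_sub hlt.le]
        ring
      simp only [h3, h2, zero_div]

lemma sum_blocks (f : ℕ → ℝ) (R B : ℕ) : ∑ k ∈ Finset.range (R * B), f k =
    ∑ r ∈ Finset.range R, ∑ s ∈ Finset.range B, f (r * B + s) := by
  induction R with
  | zero => simp
  | succ R ih =>
    rw [Finset.sum_range_succ, ← ih, Nat.succ_mul, Finset.sum_range_add]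

end

end Pool.Agent.K7.H95.TP
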