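import Pool.Agent.K7.H95.TP.Low3

/-!
MP_0d5435_pr (helper95): LOW, part 4 (the finite estimate).
-/

set_option autoImplicit false

open MeasureTheory ProbabilityTheory Filter Topology Matrix
open scoped ENNReal NNReal

namespace Pool.Agent.K7.H95.TP

noncomputable section

/-- step weight -/
def wt (R B k : ℕ) : ℝ := 1 - ((k / B : ℕ) : ℝ) / R

/-- frequency -/
def fr (B j : ℕ) : ℝ := 2 * Real.pi * (j + 1 : ℕ) / B

/-- coefficients -/
def cc (R B j k : ℕ) : ℝ := 2 * wt R B k * Real.cos (k * fr B j)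

def SR (R : ℕ) : ℝ := ∑ r ∈ Finset.range R, (1 - (r : ℝ) / R) ^ 2

lemma SR_ge (R : ℕ) (hR : 0 < R) : (R : ℝ) / 3 ≤ SR R := by
  have h1 : ∀ R : ℕ, (R : ℝ) ^ 3 ≤ 3 * ∑ r ∈ Finset.range R, ((R : ℝ) - r) ^ 2 := by
    intro R
    induction R with
    | zero => simp
    | succ R ih =>
      rw [Finset.sum_range_succ']
      have e : ∀ r : ℕ, (((R + 1 : ℕ) : ℝ) - ((r + 1 : ℕ) : ℝ)) ^ 2 = ((R : ℝ) - r) ^ 2 := by
        intro r; push_cast; ring
      simp only [e]
      push_cast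
      nlinarith [Nat.cast_nonneg (α := ℝ) R]
  have hR' : (0 : ℝ) < R := by exact_mod_cast hR
  have h2 : SR R = (∑ r ∈ Finset.range R, ((R : ℝ) - r) ^ 2) / (R : ℝ) ^ 2 := by
    unfold SR
    rw [Finset.sum_div]
    refine Finset.sum_congr rfl fun r _ => ?_
    field_simp
  rw [h2, le_div_iff₀ (by positivity)]
  have h3 := h1 R
  have h4 : (R : ℝ) / 3 * (R : ℝ) ^ 2 = (R : ℝ) ^ 3 / 3 := by ring
  rw [h4]
  linarith

lemma cc_sum {R B : ℕ} (hB : 0 < B) (i j : ℕ) :
    ∑ k : Fin (R * B), cc R B i k * cc R B j k =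
      4 * SR R * ∑ s ∈ Finset.range B, Real.cos (s * fr B i) * Real.cos (s * fr B j) := by
  rw [← Finset.sum_range (fun k => cc R B i k * cc R B j k), sum_blocks]
  unfold SR
  rw [mul_assoc, Finset.sum_mul, Finset.mul_sum]
  refine Finset.sum_congr rfl fun r _ => ?_
  rw [Finset.mul_sum, Finset.mul_sum]
  refine Finset.sum_congr rfl fun s hs => ?_
  rw [Finset.mem_range] at hs
  have h1 : (r * B + s) / B = r := by
    rw [mul_comm, Nat.mul_add_div hB, Nat.div_eq_of_lt hs, add_zero]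
  have h2 : ∀ l : ℕ, Real.cos (((r * B + s : ℕ) : ℝ) * fr B l) = Real.cos (s * fr B l) := by
    intro l
    have hB' : (B : ℝ) ≠ 0 := by exact_mod_cast hB.ne'
    have e : ((r * B + s : ℕ) : ℝ) * fr B l = s * fr B l + (r * (l + 1) : ℕ) * (2 * Real.pi) := by
      unfold fr
      push_cast
      field_simp
      ring
    rw [e, Real.cos_add_nat_mul_two_pi]
  unfold cc wt
  rw [h1, h2, h2]
  ring

lemma cc_orth {R B : ℕ} (i j : Fin ((B - 1) / 2)) (h : i ≠ j) :
    ∑ k : Fin (R * B), cc R B i k * cc R B j k = 0 := by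
  have hi := i.2
  have hj := j.2
  have hB : 0 < B := by omega
  rw [cc_sum hB]
  unfold fr
  rw [orth (by omega) (by omega) (by omega) (by omega), if_neg, mul_zero]
  intro h'
  exact h (Fin.ext (by omega))

lemma cc_norm {R B : ℕ} (j : Fin ((B - 1) / 2)) :
    ∑ k : Fin (R * B), cc R B j k ^ 2 = √(2 * B * SR R) ^ 2 := by
  have hj := j.2
  have hB : 0 < B := by omega
  have h0 : 0 ≤ SR R := Finset.sum_nonneg fun r _ => sq_nonneg _
  simp only [sq]
  rw [cc_sum hB]
  unfold fr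
  rw [orth (by omega) (by omega) (by omega) (by omega), if_pos rfl,
    Real.mul_self_sqrt (by positivity)]
  ring

/-- coefficients of the trigonometric lower bound -/
def yy (R B j k : ℕ) : ℝ :=
  2 * (1 - (k : ℝ) / (R * B : ℕ)) * Real.cos (k * fr B j) - if k = 0 then 1 else 0

lemma yy_le {R B : ℕ} (h : 0 < R * B) (j : ℕ) (g : Fin (R * B) → ℝ) :
    lf (fun k : Fin (R * B) => yy R B j k) g ≤ mx (TG (R * B) g) := by
  have h1 := mx_ge_trig h (xt g) (fr B j)
  refine le_trans (le_of_eq ?_) h1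
  unfold lf
  have h2 : ∀ k : Fin (R * B), yy R B j k * g k =
      2 * ((1 - ((k : ℕ) : ℝ) / (R * B : ℕ)) * (xt g k * Real.cos (k * fr B j))) -
        (if (k : ℕ) = 0 then xt g 0 else 0) := by
    intro k
    have e : xt g k = g k := by rw [xt_lt g k.2]
    unfold yy
    rw [e]
    split_ifs with hk
    · have e' : xt g 0 = g k := by
        have := e
        rwa [hk] at this
      rw [e']
      ring
    · ring
  simp only [h2]
  rw [Finset.sum_sub_distrib, ← Finset.mul_sum]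
  congr 1
  · congr 1
    rw [Finset.sum_range]
  · rw [← Finset.sum_range (fun k => if k = 0 then xt g 0 else 0), Finset.sum_ite_eq']
    rw [if_pos (Finset.mem_range.2 h)]

lemma dd_norm {R B : ℕ} (hR : 0 < R) (hB : 0 < B) (j : ℕ) :
    ∑ k : Fin (R * B), (cc R B j k - yy R B j k) ^ 2 ≤ 1 + 4 * B / R := by
  have hR' : (0 : ℝ) < R := by exact_mod_cast hR
  have hB' : (0 : ℝ) < B := by exact_mod_cast hB
  have h1 : ∀ k : Fin (R * B), (cc R B j k - yy R B j k) ^ 2 ≤
      4 / (R : ℝ) ^ 2 + if (k : ℕ) = 0 then 1 else 0 := by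
    intro k
    unfold cc yy wt
    have h2 : 1 - (((k : ℕ) / B : ℕ) : ℝ) / R - (1 - ((k : ℕ) : ℝ) / (R * B : ℕ)) =
        (((k : ℕ) % B : ℕ) : ℝ) / (R * B : ℕ) := by
      have h3 : ((k : ℕ) : ℝ) = B * (((k : ℕ) / B : ℕ) : ℝ) + (((k : ℕ) % B : ℕ) : ℝ) := by
        exact_mod_cast (Nat.div_add_mod (k : ℕ) B).symm
      push_cast
      field_simp
      linarith
    have h4 : 0 ≤ (((k : ℕ) % B : ℕ) : ℝ) / (R * B : ℕ) := by positivity
    have h5 : (((k : ℕ) % B : ℕ) : ℝ) / (R * B : ℕ) ≤ 1 / R := by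
      have h6 : (((k : ℕ) % B : ℕ) : ℝ) ≤ B := by exact_mod_cast (Nat.mod_lt _ hB).le
      push_cast
      rw [div_le_div_iff₀ (by positivity) hR']
      nlinarith
    split_ifs with hk
    · rw [hk] at *
      simp
      positivity
    · have h7 : 2 * (1 - (((k : ℕ) / B : ℕ) : ℝ) / R) * Real.cos ((k : ℕ) * fr B j) -
          (2 * (1 - ((k : ℕ) : ℝ) / (R * B : ℕ)) * Real.cos ((k : ℕ) * fr B j) - 0) =
          2 * ((((k : ℕ) % B : ℕ) : ℝ) / (R * B : ℕ)) * Real.cos ((k : ℕ) * fr B j) := by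
        rw [← h2]; ring
      rw [h7, mul_pow, mul_pow, add_zero]
      have h8 : Real.cos ((k : ℕ) * fr B j) ^ 2 ≤ 1 := Real.cos_sq_le_one _
      have h9 : ((((k : ℕ) % B : ℕ) : ℝ) / (R * B : ℕ)) ^ 2 ≤ (1 / R) ^ 2 :=
        pow_le_pow_left₀ h4 h5 2
      calc (2 : ℝ) ^ 2 * ((((k : ℕ) % B : ℕ) : ℝ) / (R * B : ℕ)) ^ 2 * Real.cos ((k : ℕ) * fr B j) ^ 2
          ≤ 2 ^ 2 * (1 / R) ^ 2 * 1 := by gcongr
        _ = 4 / (R : ℝ) ^ 2 := by ring
  calc ∑ k : Fin (R * B), (cc R B j k - yy R B j k) ^ 2 ≤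
      ∑ k : Fin (R * B), (4 / (R : ℝ) ^ 2 + if (k : ℕ) = 0 then 1 else 0) :=
        Finset.sum_le_sum fun k _ => h1 k
    _ ≤ 1 + 4 * B / R := by
        rw [Finset.sum_add_distrib, ← Finset.sum_range (fun k => if k = 0 then (1 : ℝ) else 0),
          Finset.sum_ite_eq', if_pos (Finset.mem_range.2 (Nat.mul_pos hR hB))]
        simp only [Finset.sum_const, Finset.card_univ, Fintype.card_fin, nsmul_eq_mul]
        push_cast
        apply le_of_eq
        field_simp
        ring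

/-- the finite estimate -/
lemma low_core {R B : ℕ} (hR : 0 < R) (hB : 0 < B) {x s : ℝ} (hx : 0 ≤ x) (hs : 0 ≤ s) :
    (gN (R * B)).real {g | mx (TG (R * B) g) < √(2 * B * SR R) * x - s} ≤
      Real.exp (-(((B - 1) / 2 : ℕ) * (Real.exp (-(x + 1) ^ 2 / 2) / √(2 * Real.pi)))) +
      ((B - 1) / 2 : ℕ) * Real.exp (-s ^ 2 / (2 * (1 + 4 * B / R))) := by
  have hR' : (0 : ℝ) < R := by exact_mod_cast hR
  have hB' : (0 : ℝ) < B := by exact_mod_cast hB
  set n := (B - 1) / 2 with hn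
  set σ := √(2 * B * SR R) with hσ
  have hσ0 : 0 < σ := by
    rw [hσ]
    have := SR_ge R hR
    have : 0 < SR R := lt_of_lt_of_le (by positivity) this
    positivity
  set c : Fin n → Fin (R * B) → ℝ := fun j k => cc R B j k with hc
  set d : Fin n → Fin (R * B) → ℝ := fun j k => cc R B j k - yy R B j k with hd
  have hsub : {g | mx (TG (R * B) g) < σ * x - s} ⊆
      {g | ∀ j, lf (c j) g < σ * x} ∪ ⋃ j ∈ (Finset.univ : Finset (Fin n)), {g | s ≤ lf (d j) g} := by
    intro g hg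
    by_contra hcon
    rw [Set.mem_union, not_or] at hcon
    obtain ⟨h1, h2⟩ := hcon
    simp only [Set.mem_iUnion, Set.mem_ofPred_eq, not_exists, not_le, Finset.mem_univ,
      not_forall, not_lt, forall_const] at h1 h2
    obtain ⟨j, hj⟩ := h1
    have h3 := h2 j
    have h4 := yy_le (Nat.mul_pos hR hB) (j : ℕ) g
    have h5 : lf (fun k : Fin (R * B) => yy R B j k) g = lf (c j) g - lf (d j) g := by
      unfold lf
      rw [← Finset.sum_sub_distrib]
      refine Finset.sum_congr rfl fun k _ => ?_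
      rw [hc, hd]
      ring
    have h6 : mx (TG (R * B) g) < σ * x - s := hg
    rw [h5] at h4
    linarith
  calc (gN (R * B)).real {g | mx (TG (R * B) g) < σ * x - s}
      ≤ (gN (R * B)).real ({g | ∀ j, lf (c j) g < σ * x} ∪
          ⋃ j ∈ (Finset.univ : Finset (Fin n)), {g | s ≤ lf (d j) g}) := measureReal_mono hsub
    _ ≤ (gN (R * B)).real {g | ∀ j, lf (c j) g < σ * x} +
        (gN (R * B)).real (⋃ j ∈ (Finset.univ : Finset (Fin n)), {g | s ≤ lf (d j) g}) :=
        measureReal_union_le _ _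
    _ ≤ _ + ∑ j : Fin n, (gN (R * B)).real {g | s ≤ lf (d j) g} :=
        add_le_add (lf_max c (fun i j h => cc_orth i j h) hσ0 (fun j => cc_norm j) hx)
          (measureReal_biUnion_finset_le _ _)
    _ ≤ _ := by
        refine add_le_add le_rfl ?_
        calc ∑ j : Fin n, (gN (R * B)).real {g | s ≤ lf (d j) g}
            ≤ ∑ _j : Fin n, Real.exp (-s ^ 2 / (2 * (1 + 4 * B / R))) :=
              Finset.sum_le_sum fun j _ => lf_tail_le (d j) (by positivity) (dd_norm hR hB j) hs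
          _ = n * Real.exp (-s ^ 2 / (2 * (1 + 4 * B / R))) := by
              rw [Finset.sum_const, Finset.card_univ, Fintype.card_fin, nsmul_eq_mul]

end

end Pool.Agent.K7.H95.TP
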