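import Pool.Agent.K7.H95.TP.Win3

/-!
MP_0d5435_pr (helper95): NORM, from the moment bound.
-/

set_option autoImplicit false

open MeasureTheory ProbabilityTheory Filter Topology Matrix
open scoped ENNReal NNReal

namespace Pool.Agent.K7.H95.TP

noncomputable section

lemma TG_neg {N : ℕ} (g : Fin N → ℝ) : -TG N g = TG N (fun k => - g k) := by
  rw [TG_sum, TG_sum, ← Finset.sum_neg_distrib]
  refine Finset.sum_congr rfl fun k _ => ?_
  rw [neg_smul]

lemma mx_neg_add {N : ℕ} (hN : 0 < N) (T : Matrix (Fin N) (Fin N) ℝ) : 0 ≤ mx T + mx (-T) := by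
  obtain ⟨u, hu⟩ := unit_nonempty hN
  have h1 := le_mx T hu
  have h2 := le_mx (-T) hu
  have h3 : qf (-T) u = - qf T u := by
    unfold qf
    rw [Matrix.neg_mulVec, dotProduct_neg]
  rw [h3] at h2
  linarith

lemma mx_sup_nonneg {N : ℕ} (hN : 0 < N) (T : Matrix (Fin N) (Fin N) ℝ) : 0 ≤ mx T ⊔ mx (-T) := by
  have h := mx_neg_add hN T
  rcases le_total 0 (mx T) with h1 | h1
  · exact le_sup_of_le_left h1
  · exact le_sup_of_le_right (by linarith)

lemma mx_pow_le (hE : S_EIG) {n : ℕ} (hn : 0 < n) {A : Matrix (Fin n) (Fin n) ℝ}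
    (hA : A.IsHermitian) (p : ℕ) : (mx A ⊔ mx (-A)) ^ (2 * p) ≤ (A ^ (2 * p)).trace := by
  have h1 : ∀ {B : Matrix (Fin n) (Fin n) ℝ} (_hB : B.IsHermitian),
      mx B ^ (2 * p) ≤ (B ^ (2 * p)).trace := by
    intro B hB
    obtain ⟨-, -, ⟨i, hi⟩, -⟩ := hE n B hB hn
    rw [trace_pow hB, ← hi]
    refine Finset.single_le_sum (f := fun i => hB.eigenvalues i ^ (2 * p)) (fun i _ => ?_)
      (Finset.mem_univ i)
    rw [pow_mul]
    positivity
  rcases le_total (mx A) (mx (-A)) with h | h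
  · rw [sup_eq_right.2 h]
    have h2 := h1 hA.neg
    have h3 : (-A) ^ (2 * p) = A ^ (2 * p) := (even_two_mul p).neg_pow A
    rwa [h3] at h2
  · rw [sup_eq_left.2 h]
    exact h1 hA

lemma dfact_le (p : ℕ) : ((2 * p - 1).doubleFactorial : ℝ) ≤ (2 * (p : ℝ)) ^ p := by
  have h : ∀ q : ℕ, (2 * q + 1).doubleFactorial ≤ (2 * (q + 1)) ^ (q + 1) := by
    intro q
    induction q with
    | zero => decide
    | succ q ih =>
      rw [show 2 * (q + 1) + 1 = 2 * q + 1 + 2 by ring, Nat.doubleFactorial_add_two, pow_succ,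
        mul_comm]
      refine Nat.mul_le_mul (ih.trans (Nat.pow_le_pow_left (by omega) _)) (by omega)
  rcases Nat.eq_zero_or_pos p with h0 | h0
  · subst h0
    simp
  · obtain ⟨q, rfl⟩ : ∃ q, p = q + 1 := ⟨p - 1, by omega⟩
    exact_mod_cast h q

lemma young {a M : ℝ} (ha : 0 < a) (hM : 0 ≤ M) {p : ℕ} (hp : 0 < p) :
    M ≤ a + M ^ (2 * p) / a ^ (2 * p - 1) := by
  rcases le_total M a with h | h
  · have : 0 ≤ M ^ (2 * p) / a ^ (2 * p - 1) := by positivity
    linarith
  · have h1 : M * a ^ (2 * p - 1) ≤ M ^ (2 * p) := by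
      have h2 : M ^ (2 * p) = M * M ^ (2 * p - 1) := by
        rw [← pow_succ']
        congr 1
        omega
      rw [h2]
      exact mul_le_mul_of_nonneg_left (pow_le_pow_left₀ ha.le h _) hM
    have h3 : M ≤ M ^ (2 * p) / a ^ (2 * p - 1) := by
      rw [le_div_iff₀ (by positivity)]
      exact h1
    linarith

lemma Ak_var {N : ℕ} (u : Fin N → ℝ) :
    qf (∑ k : Fin N, Ak N k * Ak N k) u ≤ 2 * (N : ℝ) * qf (1 : Matrix (Fin N) (Fin N) ℝ) u := by
  rw [qf_fsum]
  have h1 : ∀ k : Fin N, qf (Ak N k * Ak N k) u = (Ak N k).mulVec u ⬝ᵥ (Ak N k).mulVec u :=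
    fun k => qf_sq (Ak_symm N k) u
  simp only [h1]
  rw [sumA2]
  have h2 : qf (1 : Matrix (Fin N) (Fin N) ℝ) u = u ⬝ᵥ u := by
    unfold qf
    rw [Matrix.one_mulVec]
  rw [h2]
  have h3 : ∀ w : Fin N → ℝ, (∑ i, w i) ^ 2 ≤ N * ∑ i, w i ^ 2 := by
    intro w
    have h4 := Finset.sum_mul_sq_le_sq_mul_sq Finset.univ (fun _ : Fin N => (1 : ℝ)) w
    simpa using h4
  have h5 := h3 (fun i : Fin N => if (i : ℕ) % 2 = 0 then u i else 0)
  have h6 := h3 (fun i : Fin N => if (i : ℕ) % 2 = 1 then u i else 0)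
  have h7 : (∑ i : Fin N, (if (i : ℕ) % 2 = 0 then u i else 0) ^ 2) +
      (∑ i : Fin N, (if (i : ℕ) % 2 = 1 then u i else 0) ^ 2) = u ⬝ᵥ u := by
    rw [← Finset.sum_add_distrib, dotProduct]
    refine Finset.sum_congr rfl fun i _ => ?_
    rcases Nat.mod_two_eq_zero_or_one (i : ℕ) with h | h <;> simp [h, sq]
  have h8 : 0 ≤ u ⬝ᵥ u := by
    rw [dotProduct]
    exact Finset.sum_nonneg fun i _ => mul_self_nonneg _
  nlinarith

theorem s_NORM_of (hE : S_EIG) (hMOM : S_MOM) : S_NORM := by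
  refine ⟨2 * √(12 * Real.exp 1), by positivity, fun N hN => ?_⟩
  have hN0 : 0 < N := by omega
  have hN' : (2 : ℝ) ≤ N := by exact_mod_cast hN
  have hlog2 : (1 : ℝ) / 2 < Real.log N := by
    have h1 : (1 : ℝ) / 2 < Real.log 2 := by
      have := Real.log_two_gt_d9
      linarith
    exact lt_of_lt_of_le h1 (Real.log_le_log (by norm_num) hN')
  set p : ℕ := ⌈Real.log N⌉₊ with hp
  have hp1 : Real.log N ≤ p := Nat.le_ceil _
  have hp0 : 0 < p := Nat.ceil_pos.2 (by linarith)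
  have hp2 : (p : ℝ) ≤ 3 * Real.log N := by
    have := Nat.ceil_lt_add_one (by linarith : 0 ≤ Real.log N)
    linarith
  have hp' : (0 : ℝ) < p := by exact_mod_cast hp0
  obtain ⟨h1, h2⟩ := hMOM N N (fun k => Ak N k) 1 (2 * N) (by positivity)
    (fun k => Ak_symm N k) Matrix.isSymm_one (mul_one _) (fun k => one_mul _) Ak_var p hp0
  simp only [← TG_sum] at h1 h2
  rw [Matrix.trace_one, Fintype.card_fin] at h2
  set a : ℝ := √(4 * Real.exp 1 * p * N) with ha
  have ha0 : 0 < a := by rw [ha]; positivity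
  have ha2 : a ^ 2 = 4 * Real.exp 1 * p * N := Real.sq_sqrt (by positivity)
  set M : (Fin N → ℝ) → ℝ := fun g => mx (TG N g) ⊔ mx (-TG N g) with hM
  have hM0 : ∀ g, 0 ≤ M g := fun g => mx_sup_nonneg hN0 _
  have hMle : ∀ g, M g ≤ a + (TG N g ^ (2 * p)).trace / a ^ (2 * p - 1) := by
    intro g
    refine (young ha0 (hM0 g) hp0).trans (add_le_add le_rfl ?_)
    exact div_le_div_of_nonneg_right (mx_pow_le hE hN0 (Tz_herm N _) p) (by positivity)
  have hmeas : Measurable M := by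
    refine (mx_meas hE hN0).sup ?_
    simp only [TG_neg]
    exact (mx_meas hE hN0).comp (measurable_pi_lambda _ fun k => (measurable_pi_apply k).neg)
  have hint2 : Integrable (fun g => a + (TG N g ^ (2 * p)).trace / a ^ (2 * p - 1)) (gN N) :=
    (integrable_const a).add (h1.div_const _)
  have hint : Integrable M (gN N) := by
    refine hint2.mono' hmeas.aestronglyMeasurable (Eventually.of_forall fun g => ?_)
    rw [Real.norm_of_nonneg (hM0 g)]
    exact hMle g
  refine ⟨hint, ?_⟩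
  have h3 : ∫ g, M g ∂gN N ≤ a + (((2 * p - 1).doubleFactorial : ℝ) * (2 * N) ^ p * N) /
      a ^ (2 * p - 1) := by
    calc ∫ g, M g ∂gN N ≤ ∫ g, (a + (TG N g ^ (2 * p)).trace / a ^ (2 * p - 1)) ∂gN N :=
          integral_mono hint hint2 hMle
      _ = a + (∫ g, (TG N g ^ (2 * p)).trace ∂gN N) / a ^ (2 * p - 1) := by
          rw [integral_add (integrable_const a) (h1.div_const _), integral_div]
          simp
      _ ≤ _ := by gcongr
  have h4 : (((2 * p - 1).doubleFactorial : ℝ) * (2 * N) ^ p * N) / a ^ (2 * p - 1) ≤ a := by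
    have e1 : a ^ (2 * p) = a * a ^ (2 * p - 1) := by
      rw [← pow_succ']
      congr 1
      omega
    rw [div_le_iff₀ (by positivity), ← e1, pow_mul, ha2]
    have h5 : (N : ℝ) ≤ Real.exp 1 ^ p := by
      rw [Real.exp_one_pow]
      calc (N : ℝ) = Real.exp (Real.log N) := (Real.exp_log (by linarith)).symm
        _ ≤ Real.exp p := Real.exp_le_exp.2 hp1
    calc ((2 * p - 1).doubleFactorial : ℝ) * (2 * N) ^ p * N
        ≤ (2 * (p : ℝ)) ^ p * (2 * N) ^ p * Real.exp 1 ^ p := by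
          have := dfact_le p
          gcongr
      _ = (4 * Real.exp 1 * p * N) ^ p := by
          rw [← mul_pow, ← mul_pow]
          congr 1
          ring
  have h6 : a ≤ √(12 * Real.exp 1) * √(N * Real.log N) := by
    rw [ha, ← Real.sqrt_mul (by positivity)]
    refine Real.sqrt_le_sqrt ?_
    have : 4 * Real.exp 1 * (p : ℝ) * N ≤ 4 * Real.exp 1 * (3 * Real.log N) * N := by gcongr
    calc _ ≤ _ := this
      _ = _ := by ring
  calc ∫ g, M g ∂gN N ≤ a + a := h3.trans (add_le_add le_rfl h4)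
    _ ≤ 2 * √(12 * Real.exp 1) * √(N * Real.log N) := by linarith

end

end Pool.Agent.K7.H95.TP
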