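import Pool.Agent.K7.H95.TP.Win1
import Pool.Agent.K7.H95.TP.Low2

/-!
MP_0d5435_pr (helper95): ONE.
-/

set_option autoImplicit false

open MeasureTheory ProbabilityTheory Filter Topology Matrix
open scoped ENNReal NNReal

namespace Pool.Agent.K7.H95.TP

noncomputable section

lemma lf_sq {N : ℕ} (c : Fin N → ℝ) : Integrable (fun g => lf c g ^ 2) (gN N) ∧
    ∫ g, lf c g ^ 2 ∂gN N = ∑ k, c k ^ 2 := by
  have h1 : MemLp (lf c) 2 (gN N) := (lf_gauss1 c).memLp_two
  refine ⟨h1.integrable_sq, ?_⟩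
  have h2 := lf_cov c c
  rw [covariance_self (lf_gauss1 c).aemeasurable,
    variance_of_integral_eq_zero (lf_gauss1 c).aemeasurable (lf_mean c)] at h2
  rw [h2]
  exact Finset.sum_congr rfl fun k _ => by ring

theorem s_ONE : S_ONE := by
  intro N
  have h1 : ∀ (g : Fin N → ℝ) (i : Fin N), ∑ j, TG N g i j =
      lf (fun k : Fin N => (Ak N k).mulVec (fun _ => 1) i) g := by
    intro g i
    rw [TG_sum]
    simp only [Matrix.sum_apply, Matrix.smul_apply, smul_eq_mul]
    rw [Finset.sum_comm]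
    unfold lf
    refine Finset.sum_congr rfl fun k _ => ?_
    rw [← Finset.mul_sum, mul_comm]
    congr 1
    simp [mulVec, dotProduct]
  simp only [h1]
  refine ⟨integrable_finset_sum _ fun i _ => (lf_sq _).1, ?_⟩
  rw [integral_finset_sum _ fun i _ => (lf_sq _).1]
  simp only [(lf_sq _).2]
  rw [Finset.sum_comm]
  have h2 : ∀ k : Fin N, ∑ i : Fin N, (Ak N k).mulVec (fun _ => 1) i ^ 2 =
      (Ak N k).mulVec (fun _ => 1) ⬝ᵥ (Ak N k).mulVec (fun _ => 1) := by
    intro k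
    rw [dotProduct]
    exact Finset.sum_congr rfl fun i _ => by ring
  simp only [h2]
  rw [sumA2]
  set E : ℝ := ∑ i : Fin N, if (i : ℕ) % 2 = 0 then (1 : ℝ) else 0 with hE
  set O : ℝ := ∑ i : Fin N, if (i : ℕ) % 2 = 1 then (1 : ℝ) else 0 with hO
  have hE0 : 0 ≤ E := Finset.sum_nonneg fun i _ => by split_ifs <;> norm_num
  have hO0 : 0 ≤ O := Finset.sum_nonneg fun i _ => by split_ifs <;> norm_num
  have hEO : E + O = N := by
    rw [hE, hO, ← Finset.sum_add_distrib]
    have : ∀ i : Fin N, ((if (i : ℕ) % 2 = 0 then (1 : ℝ) else 0) +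
        if (i : ℕ) % 2 = 1 then (1 : ℝ) else 0) = 1 := by
      intro i
      rcases Nat.mod_two_eq_zero_or_one (i : ℕ) with h | h <;> simp [h]
    simp [this]
  have h3 : (fun _ : Fin N => (1 : ℝ)) ⬝ᵥ (fun _ => 1) = N := by simp [dotProduct]
  rw [h3]
  have hN : (0 : ℝ) ≤ N := Nat.cast_nonneg N
  nlinarith [mul_nonneg hE0 hO0]

end

end Pool.Agent.K7.H95.TP
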