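import Pool.Agent.K7.H95.TP.Low3

/-!
MP_0d5435_pr (helper95): WIN, part 1 (the matrices `A_k`, the sum of their squares, the projection
onto block constant vectors).
-/

set_option autoImplicit false

open MeasureTheory ProbabilityTheory Filter Topology Matrix
open scoped ENNReal NNReal

namespace Pool.Agent.K7.H95.TP

noncomputable section

/-- the `k`-th Toeplitz matrix -/
def Ak (N k : ℕ) : Matrix (Fin N) (Fin N) ℝ := Tz N (fun l => if l = k then 1 else 0)

lemma Ak_apply {N : ℕ} (k : ℕ) (i j : Fin N) :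
    Ak N k i j = if Int.natAbs ((i : ℤ) - (j : ℤ)) = k then 1 else 0 := rfl

lemma Ak_symm (N k : ℕ) : (Ak N k).IsSymm := by
  have h := Tz_herm N (fun l => if l = k then (1 : ℝ) else 0)
  have h2 : (Ak N k)ᴴ = Ak N k := h
  rw [Matrix.conjTranspose_eq_transpose_of_trivial] at h2
  exact h2

lemma natAbs_lt {N : ℕ} (i j : Fin N) : Int.natAbs ((i : ℤ) - (j : ℤ)) < N := by
  have := i.2
  have := j.2
  omega

lemma TG_sum {N : ℕ} (g : Fin N → ℝ) : TG N g = ∑ k : Fin N, g k • Ak N k := by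
  ext i j
  rw [Matrix.sum_apply]
  simp only [Matrix.smul_apply, Ak_apply, smul_eq_mul, mul_ite, mul_one, mul_zero]
  show xt g (Int.natAbs ((i : ℤ) - (j : ℤ))) = _
  rw [xt_lt g (natAbs_lt i j), Finset.sum_eq_single (⟨_, natAbs_lt i j⟩ : Fin N)]
  · simp
  · intro b _ hb
    rw [if_neg]
    intro h
    exact hb (Fin.ext h.symm)
  · intro h
    exact absurd (Finset.mem_univ _) h

/-- number of centres -/
lemma centres {N : ℕ} (j j' : Fin N) :
    ∑ i : Fin N, (if Int.natAbs ((i : ℤ) - (j : ℤ)) = Int.natAbs ((i : ℤ) - (j' : ℤ)) then (1 : ℝ)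
      else 0) = ((N : ℝ) - 1) * (if j = j' then 1 else 0) +
        if ((j : ℕ) + (j' : ℕ)) % 2 = 0 then 1 else 0 := by
  have hj := j.2
  have hj' := j'.2
  by_cases h : j = j'
  · subst h
    have h2 : ((j : ℕ) + (j : ℕ)) % 2 = 0 := by omega
    simp [h2]
  · rw [if_neg h, mul_zero, zero_add]
    have hne : (j : ℕ) ≠ (j' : ℕ) := fun e => h (Fin.ext e)
    split_ifs with h2
    · rw [Finset.sum_eq_single (⟨((j : ℕ) + (j' : ℕ)) / 2, by omega⟩ : Fin N)]
      · rw [if_pos]
        simp only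
        omega
      · intro i _ hi
        rw [if_neg]
        intro h3
        apply hi
        apply Fin.ext
        show (i : ℕ) = ((j : ℕ) + (j' : ℕ)) / 2
        omega
      · intro h3
        exact absurd (Finset.mem_univ _) h3
    · refine Finset.sum_eq_zero fun i _ => ?_
      rw [if_neg]
      omega

/-- the sum of the squares of the matrices `A_k` -/
lemma sumA2 {N : ℕ} (v : Fin N → ℝ) :
    ∑ k : Fin N, (Ak N k).mulVec v ⬝ᵥ (Ak N k).mulVec v = ((N : ℝ) - 1) * (v ⬝ᵥ v) +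
      (∑ i : Fin N, if (i : ℕ) % 2 = 0 then v i else 0) ^ 2 +
      (∑ i : Fin N, if (i : ℕ) % 2 = 1 then v i else 0) ^ 2 := by
  have h1 : ∀ k : Fin N, (Ak N k).mulVec v ⬝ᵥ (Ak N k).mulVec v =
      ∑ i : Fin N, ∑ j : Fin N, ∑ j' : Fin N,
        (if Int.natAbs ((i : ℤ) - (j : ℤ)) = (k : ℕ) then (1 : ℝ) else 0) *
        (if Int.natAbs ((i : ℤ) - (j' : ℤ)) = (k : ℕ) then (1 : ℝ) else 0) * (v j * v j') := by
    intro k
    simp only [dotProduct, mulVec, Ak_apply]
    refine Finset.sum_congr rfl fun i _ => ?_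
    rw [Finset.sum_mul_sum]
    refine Finset.sum_congr rfl fun j _ => Finset.sum_congr rfl fun j' _ => ?_
    ring
  simp only [h1]
  have h2 : ∑ k : Fin N, ∑ i : Fin N, ∑ j : Fin N, ∑ j' : Fin N,
        (if Int.natAbs ((i : ℤ) - (j : ℤ)) = (k : ℕ) then (1 : ℝ) else 0) *
        (if Int.natAbs ((i : ℤ) - (j' : ℤ)) = (k : ℕ) then (1 : ℝ) else 0) * (v j * v j') =
      ∑ j : Fin N, ∑ j' : Fin N, (∑ i : Fin N,
        (if Int.natAbs ((i : ℤ) - (j : ℤ)) = Int.natAbs ((i : ℤ) - (j' : ℤ)) then (1 : ℝ)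
          else 0)) * (v j * v j') := by
    have h3 : ∀ i j j' : Fin N, ∑ k : Fin N,
        (if Int.natAbs ((i : ℤ) - (j : ℤ)) = (k : ℕ) then (1 : ℝ) else 0) *
        (if Int.natAbs ((i : ℤ) - (j' : ℤ)) = (k : ℕ) then (1 : ℝ) else 0) * (v j * v j') =
        (if Int.natAbs ((i : ℤ) - (j : ℤ)) = Int.natAbs ((i : ℤ) - (j' : ℤ)) then (1 : ℝ)
          else 0) * (v j * v j') := by
      intro i j j'
      rw [Finset.sum_eq_single (⟨_, natAbs_lt i j⟩ : Fin N)]
      · simp only [if_true, one_mul]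
        congr 1
        simp only [eq_comm]
      · intro k _ hk
        rw [if_neg, zero_mul, zero_mul]
        intro h
        exact hk (Fin.ext h.symm)
      · intro h
        exact absurd (Finset.mem_univ _) h
    calc _ = ∑ i : Fin N, ∑ j : Fin N, ∑ j' : Fin N, ∑ k : Fin N,
        (if Int.natAbs ((i : ℤ) - (j : ℤ)) = (k : ℕ) then (1 : ℝ) else 0) *
        (if Int.natAbs ((i : ℤ) - (j' : ℤ)) = (k : ℕ) then (1 : ℝ) else 0) * (v j * v j') := by
          rw [Finset.sum_comm]
          refine Finset.sum_congr rfl fun i _ => ?_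
          rw [Finset.sum_comm]
          refine Finset.sum_congr rfl fun j _ => ?_
          rw [Finset.sum_comm]
      _ = ∑ i : Fin N, ∑ j : Fin N, ∑ j' : Fin N, (if Int.natAbs ((i : ℤ) - (j : ℤ)) =
            Int.natAbs ((i : ℤ) - (j' : ℤ)) then (1 : ℝ) else 0) * (v j * v j') := by
          simp only [h3]
      _ = _ := by
          rw [Finset.sum_comm]
          refine Finset.sum_congr rfl fun j _ => ?_
          rw [Finset.sum_comm]
          refine Finset.sum_congr rfl fun j' _ => ?_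
          rw [Finset.sum_mul]
  rw [h2]
  simp only [centres]
  have h4 : ∀ j j' : Fin N, (((N : ℝ) - 1) * (if j = j' then 1 else 0) +
      if ((j : ℕ) + (j' : ℕ)) % 2 = 0 then 1 else 0) * (v j * v j') =
      (if j = j' then ((N : ℝ) - 1) * (v j * v j') else 0) +
      ((if (j : ℕ) % 2 = 0 then v j else 0) * (if (j' : ℕ) % 2 = 0 then v j' else 0) +
        (if (j : ℕ) % 2 = 1 then v j else 0) * (if (j' : ℕ) % 2 = 1 then v j' else 0)) := by
    intro j j'
    rcases Nat.mod_two_eq_zero_or_one (j : ℕ) with h | h <;>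
    rcases Nat.mod_two_eq_zero_or_one (j' : ℕ) with h' | h'
    · have h5 : ((j : ℕ) + (j' : ℕ)) % 2 = 0 := by omega
      rw [if_pos h5]
      by_cases hjj : j = j' <;> simp [h, h', hjj]
      ring
    · have h5 : ¬ ((j : ℕ) + (j' : ℕ)) % 2 = 0 := by omega
      have h6 : j ≠ j' := fun e => by rw [e] at h; omega
      simp [h, h', h5, h6]
    · have h5 : ¬ ((j : ℕ) + (j' : ℕ)) % 2 = 0 := by omega
      have h6 : j ≠ j' := fun e => by rw [e] at h; omega
      simp [h, h', h5, h6]
    · have h5 : ((j : ℕ) + (j' : ℕ)) % 2 = 0 := by omega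
      rw [if_pos h5]
      by_cases hjj : j = j' <;> simp [h, h', hjj]
      ring
  simp only [h4]
  simp only [Finset.sum_add_distrib, Finset.sum_ite_eq, Finset.mem_univ, if_true]
  rw [sq, sq, Finset.sum_mul_sum, Finset.sum_mul_sum, dotProduct, Finset.mul_sum, add_assoc]

end

end Pool.Agent.K7.H95.TP
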