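import Pool.Agent.K7.H95.TP.Win1

/-!
MP_0d5435_pr (helper95): WIN, part 2 (the projection onto block constant vectors).
-/

set_option autoImplicit false

open MeasureTheory ProbabilityTheory Filter Topology Matrix
open scoped ENNReal NNReal

namespace Pool.Agent.K7.H95.TP

noncomputable section

/-- the orthogonal projection onto the vectors of `BC K M` -/
def Qm (K M : ℕ) : Matrix (Fin (K * M)) (Fin (K * M)) ℝ :=
  Matrix.of fun i j => (if (i : ℕ) / K = (j : ℕ) / K then 1 / (K : ℝ) else 0) - 1 / (K * M : ℕ)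

lemma Qm_symm (K M : ℕ) : (Qm K M).IsSymm := by
  ext i j
  simp only [Matrix.transpose_apply, Qm, Matrix.of_apply, eq_comm]

lemma block_div {K M : ℕ} (_hK : 0 < K) (i : Fin (K * M)) : (i : ℕ) / K < M :=
  Nat.div_lt_of_lt_mul i.2

lemma block_card {K M : ℕ} (hK : 0 < K) {a : ℕ} (ha : a < M) :
    ∑ j : Fin (K * M), (if a = (j : ℕ) / K then (1 : ℝ) else 0) = K := by
  rw [← Finset.sum_range (fun j => if a = j / K then (1 : ℝ) else 0), mul_comm K M, sum_blocks,
    Finset.sum_eq_single a]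
  · have h1 : ∀ s ∈ Finset.range K, (if a = (a * K + s) / K then (1 : ℝ) else 0) = 1 := by
      intro s hs
      rw [Finset.mem_range] at hs
      rw [if_pos]
      rw [mul_comm, Nat.mul_add_div hK, Nat.div_eq_of_lt hs, add_zero]
    rw [Finset.sum_congr rfl h1]
    simp
  · intro r _ hr
    refine Finset.sum_eq_zero fun s hs => ?_
    rw [Finset.mem_range] at hs
    rw [if_neg]
    rw [mul_comm, Nat.mul_add_div hK, Nat.div_eq_of_lt hs, add_zero]
    exact fun h => hr h.symm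
  · intro h
    exact absurd (Finset.mem_range.2 ha) h

lemma Qm_mulVec {K M : ℕ} (v : Fin (K * M) → ℝ) (i : Fin (K * M)) :
    (Qm K M).mulVec v i = (∑ j : Fin (K * M), if (i : ℕ) / K = (j : ℕ) / K then v j else 0) / K -
      (∑ j, v j) / (K * M : ℕ) := by
  simp only [mulVec, dotProduct, Qm, Matrix.of_apply]
  rw [Finset.sum_div, Finset.sum_div, ← Finset.sum_sub_distrib]
  refine Finset.sum_congr rfl fun j _ => ?_
  split_ifs <;> ring

lemma Qm_fix {K M : ℕ} (hK : 0 < K) {u : Fin (K * M) → ℝ} (hu : BC K M u) :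
    (Qm K M).mulVec u = u := by
  funext i
  rw [Qm_mulVec, hu.2, zero_div, sub_zero]
  have h1 : ∀ j : Fin (K * M), (if (i : ℕ) / K = (j : ℕ) / K then u j else 0) =
      (if (i : ℕ) / K = (j : ℕ) / K then (1 : ℝ) else 0) * u i := by
    intro j
    split_ifs with h
    · rw [hu.1 i j h, one_mul]
    · rw [zero_mul]
  simp only [h1]
  rw [← Finset.sum_mul, block_card hK (block_div hK i)]
  have : (K : ℝ) ≠ 0 := by exact_mod_cast hK.ne'
  field_simp

lemma Qm_BC {K M : ℕ} (hK : 0 < K) (hM : 0 < M) (v : Fin (K * M) → ℝ) :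
    BC K M ((Qm K M).mulVec v) := by
  refine ⟨?_, ?_⟩
  · intro i j h
    rw [Qm_mulVec, Qm_mulVec, h]
  · simp only [Qm_mulVec]
    rw [Finset.sum_sub_distrib, ← Finset.sum_div, Finset.sum_comm]
    have h1 : ∀ j : Fin (K * M), ∑ i : Fin (K * M), (if (i : ℕ) / K = (j : ℕ) / K then v j else 0) =
        K * v j := by
      intro j
      rw [← block_card hK (block_div hK j), Finset.sum_mul]
      refine Finset.sum_congr rfl fun i _ => ?_
      simp only [eq_comm (a := (i : ℕ) / K)]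
      split_ifs <;> ring
    simp only [h1]
    rw [← Finset.mul_sum]
    have hK' : (K : ℝ) ≠ 0 := by exact_mod_cast hK.ne'
    have hM' : (M : ℝ) ≠ 0 := by exact_mod_cast hM.ne'
    simp only [Finset.sum_const, Finset.card_univ, Fintype.card_fin, nsmul_eq_mul]
    push_cast
    field_simp
    ring

lemma Qm_idem {K M : ℕ} (hK : 0 < K) (hM : 0 < M) : Qm K M * Qm K M = Qm K M := by
  have h : ∀ v, (Qm K M * Qm K M).mulVec v = (Qm K M).mulVec v := by
    intro v
    rw [← Matrix.mulVec_mulVec]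
    exact Qm_fix hK (Qm_BC hK hM v)
  exact Matrix.ext_of_mulVec_single fun i => h _

lemma Qm_trace {K M : ℕ} (hK : 0 < K) (hM : 0 < M) : (Qm K M).trace = M - 1 := by
  rw [Matrix.trace]
  have h1 : ∀ i : Fin (K * M), (Qm K M).diag i = 1 / (K : ℝ) - 1 / (K * M : ℕ) := by
    intro i
    simp [Qm, Matrix.diag]
  simp only [h1, Finset.sum_const, Finset.card_univ, Fintype.card_fin, nsmul_eq_mul]
  have hK' : (K : ℝ) ≠ 0 := by exact_mod_cast hK.ne'
  have hM' : (M : ℝ) ≠ 0 := by exact_mod_cast hM.ne'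
  push_cast
  field_simp

/-- for a projection, `|Q w|² ≤ |w|²` -/
lemma proj_le {N : ℕ} {Q : Matrix (Fin N) (Fin N) ℝ} (hs : Q.IsSymm) (hi : Q * Q = Q)
    (w : Fin N → ℝ) : Q.mulVec w ⬝ᵥ Q.mulVec w ≤ w ⬝ᵥ w := by
  have h1 : w ⬝ᵥ Q.mulVec w = Q.mulVec w ⬝ᵥ Q.mulVec w := by
    conv_lhs => rw [← hi, ← Matrix.mulVec_mulVec, Matrix.dotProduct_mulVec,
      ← Matrix.mulVec_transpose, hs]
  have h2 : 0 ≤ (w - Q.mulVec w) ⬝ᵥ (w - Q.mulVec w) := by
    rw [dotProduct]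
    exact Finset.sum_nonneg fun i _ => mul_self_nonneg _
  have h3 : (w - Q.mulVec w) ⬝ᵥ (w - Q.mulVec w) = w ⬝ᵥ w - Q.mulVec w ⬝ᵥ Q.mulVec w := by
    rw [sub_dotProduct, dotProduct_sub, dotProduct_sub, dotProduct_comm (Q.mulVec w) w, h1]
    ring
  linarith

/-- the involution `2a ↔ 2a+1` -/
def flip2 (n : ℕ) : ℕ := if n % 2 = 0 then n + 1 else n - 1

lemma flip2_lt {N n : ℕ} (hN : Even N) (h : n < N) : flip2 n < N := by
  unfold flip2
  obtain ⟨r, hr⟩ := hN
  split_ifs <;> omega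

lemma flip2_flip2 (n : ℕ) : flip2 (flip2 n) = n := by
  unfold flip2
  split_ifs <;> omega

def flipE {N : ℕ} (hN : Even N) : Fin N ≃ Fin N where
  toFun i := ⟨flip2 i, flip2_lt hN i.2⟩
  invFun i := ⟨flip2 i, flip2_lt hN i.2⟩
  left_inv i := Fin.ext (flip2_flip2 i)
  right_inv i := Fin.ext (flip2_flip2 i)

lemma parity_sums {K M : ℕ} (hK : Even K) {v : Fin (K * M) → ℝ} (hv : BC K M v) :
    (∑ i : Fin (K * M), if (i : ℕ) % 2 = 0 then v i else 0) = 0 ∧
    (∑ i : Fin (K * M), if (i : ℕ) % 2 = 1 then v i else 0) = 0 := by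
  have hN : Even (K * M) := hK.mul_right M
  have h1 : (∑ i : Fin (K * M), if (i : ℕ) % 2 = 0 then v i else 0) =
      ∑ i : Fin (K * M), if (i : ℕ) % 2 = 1 then v i else 0 := by
    rw [← Equiv.sum_comp (flipE hN)]
    refine Finset.sum_congr rfl fun i _ => ?_
    have h2 : v (flipE hN i) = v i := by
      refine hv.1 _ _ ?_
      show flip2 (i : ℕ) / K = (i : ℕ) / K
      obtain ⟨r, hr⟩ := hK
      have hK2 : K = 2 * r := by omega
      have h3 : ∀ n : ℕ, n / K = (n / 2) / r := fun n => by rw [hK2, Nat.div_div_eq_div_mul]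
      rw [h3, h3]
      congr 1
      unfold flip2
      split_ifs <;> omega
    have h4 : ((flipE hN i : Fin (K * M)) : ℕ) = flip2 (i : ℕ) := rfl
    rw [h2, h4]
    have h5 : flip2 (i : ℕ) % 2 = 0 ↔ (i : ℕ) % 2 = 1 := by
      unfold flip2
      split_ifs <;> omega
    simp only [h5]
  have h2 : (∑ i : Fin (K * M), if (i : ℕ) % 2 = 0 then v i else 0) +
      (∑ i : Fin (K * M), if (i : ℕ) % 2 = 1 then v i else 0) = 0 := by
    rw [← Finset.sum_add_distrib]
    refine Eq.trans (Finset.sum_congr rfl fun i _ => ?_) hv.2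
    rcases Nat.mod_two_eq_zero_or_one (i : ℕ) with h | h <;> simp [h]
  constructor <;> linarith

/-- the matrices `B_k = Q A_k Q` -/
def Bk (K M k : ℕ) : Matrix (Fin (K * M)) (Fin (K * M)) ℝ := Qm K M * Ak (K * M) k * Qm K M

lemma Bk_symm (K M k : ℕ) : (Bk K M k).IsSymm := by
  unfold Bk
  rw [Matrix.IsSymm, Matrix.transpose_mul, Matrix.transpose_mul, Qm_symm, Ak_symm, mul_assoc]

lemma Q_Bk {K M : ℕ} (hK : 0 < K) (hM : 0 < M) (k : ℕ) : Qm K M * Bk K M k = Bk K M k := by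
  unfold Bk
  rw [← mul_assoc, ← mul_assoc, Qm_idem hK hM]

lemma Bk_sum {K M : ℕ} (g : Fin (K * M) → ℝ) :
    ∑ k : Fin (K * M), g k • Bk K M k = Qm K M * TG (K * M) g * Qm K M := by
  rw [TG_sum, Finset.mul_sum, Finset.sum_mul]
  refine Finset.sum_congr rfl fun k _ => ?_
  unfold Bk
  rw [Matrix.mul_smul, Matrix.smul_mul]

lemma qf_sq {N : ℕ} {B : Matrix (Fin N) (Fin N) ℝ} (hs : B.IsSymm) (u : Fin N → ℝ) :
    qf (B * B) u = B.mulVec u ⬝ᵥ B.mulVec u := by
  unfold qf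
  rw [← Matrix.mulVec_mulVec, Matrix.dotProduct_mulVec, ← Matrix.mulVec_transpose, hs]

lemma qf_fsum {N : ℕ} {ι : Type*} (s : Finset ι) (B : ι → Matrix (Fin N) (Fin N) ℝ)
    (u : Fin N → ℝ) : qf (∑ k ∈ s, B k) u = ∑ k ∈ s, qf (B k) u := by
  unfold qf
  rw [Matrix.sum_mulVec, dotProduct_sum]

/-- the variance bound -/
lemma Bk_var {K M : ℕ} (hK : 0 < K) (hM : 0 < M) (hK2 : Even K) (u : Fin (K * M) → ℝ) :
    qf (∑ k : Fin (K * M), Bk K M k * Bk K M k) u ≤ ((K * M : ℕ) : ℝ) * qf (Qm K M) u := by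
  rw [qf_fsum]
  have hQ : qf (Qm K M) u = (Qm K M).mulVec u ⬝ᵥ (Qm K M).mulVec u := by
    rw [← qf_sq (Qm_symm K M), Qm_idem hK hM]
  have h1 : ∀ k : Fin (K * M), qf (Bk K M k * Bk K M k) u ≤
      (Ak (K * M) k).mulVec ((Qm K M).mulVec u) ⬝ᵥ (Ak (K * M) k).mulVec ((Qm K M).mulVec u) := by
    intro k
    rw [qf_sq (Bk_symm K M k)]
    unfold Bk
    rw [← Matrix.mulVec_mulVec, ← Matrix.mulVec_mulVec]
    exact proj_le (Qm_symm K M) (Qm_idem hK hM) _
  refine le_trans (Finset.sum_le_sum fun k _ => h1 k) ?_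
  rw [sumA2, (parity_sums hK2 (Qm_BC hK hM u)).1, (parity_sums hK2 (Qm_BC hK hM u)).2, hQ]
  have h2 : 0 ≤ (Qm K M).mulVec u ⬝ᵥ (Qm K M).mulVec u := by
    rw [dotProduct]
    exact Finset.sum_nonneg fun i _ => mul_self_nonneg _
  nlinarith

end

end Pool.Agent.K7.H95.TP
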