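import Pool.Agent.K7.H95.TP.Win2
import Pool.Agent.K7.H95.TP.Fin3

/-!
MP_0d5435_pr (helper95): WIN, part 3 (from the moment bound).
-/

set_option autoImplicit false

open MeasureTheory ProbabilityTheory Filter Topology Matrix
open scoped ENNReal NNReal

namespace Pool.Agent.K7.H95.TP

noncomputable section

open Polynomial in
lemma trace_pow {n : ℕ} {A : Matrix (Fin n) (Fin n) ℝ} (hA : A.IsHermitian) (k : ℕ) :
    (A ^ k).trace = ∑ i, hA.eigenvalues i ^ k := by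
  have h := trace_aeval hA (X ^ k)
  simpa using h

lemma trace_even_nonneg {n : ℕ} {A : Matrix (Fin n) (Fin n) ℝ} (hA : A.IsHermitian) (p : ℕ) :
    0 ≤ (A ^ (2 * p)).trace := by
  rw [trace_pow hA]
  refine Finset.sum_nonneg fun i _ => ?_
  rw [pow_mul]
  positivity

lemma trace_even_gt (hE : S_EIG) {n : ℕ} (hn : 0 < n) {A : Matrix (Fin n) (Fin n) ℝ}
    (hA : A.IsHermitian) {p : ℕ} (hp : 0 < p) {t : ℝ} (ht : 0 < t) {u : Fin n → ℝ}
    (hu : u ⬝ᵥ u = 1) (h : t < qf A u) : t ^ (2 * p) < (A ^ (2 * p)).trace := by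
  obtain ⟨-, -, ⟨i, hi⟩, -⟩ := hE n A hA hn
  have h1 : t < hA.eigenvalues i := by
    rw [hi]
    exact lt_of_lt_of_le h (le_mx A hu)
  rw [trace_pow hA]
  calc t ^ (2 * p) < hA.eigenvalues i ^ (2 * p) := pow_lt_pow_left₀ h1 ht.le (by omega)
    _ ≤ ∑ i, hA.eigenvalues i ^ (2 * p) := by
        refine Finset.single_le_sum (f := fun i => hA.eigenvalues i ^ (2 * p)) (fun i _ => ?_)
          (Finset.mem_univ i)
        rw [pow_mul]
        positivity

lemma Q_qf {N : ℕ} {Q T : Matrix (Fin N) (Fin N) ℝ} (hs : Q.IsSymm) {u : Fin N → ℝ}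
    (h : Q.mulVec u = u) : qf (Q * T * Q) u = qf T u := by
  unfold qf
  rw [← Matrix.mulVec_mulVec, ← Matrix.mulVec_mulVec, h, Matrix.dotProduct_mulVec,
    ← Matrix.mulVec_transpose, hs, h]

/-- the probability estimate -/
lemma win_prob (hE : S_EIG) (hMOM : S_MOM) {K M : ℕ} (hK : 0 < K) (hM : 0 < M) (hK2 : Even K)
    {t : ℝ} (ht : 0 < t) {p : ℕ} (hp : 0 < p) :
    gN (K * M) {g | ∃ u, BC K M u ∧ u ⬝ᵥ u = 1 ∧ t < qf (TG (K * M) g) u} ≤
      ENNReal.ofReal (((2 * p - 1).doubleFactorial : ℝ) * ((K * M : ℕ) : ℝ) ^ p * ((M : ℝ) - 1) /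
        t ^ (2 * p)) := by
  obtain ⟨h1, h2⟩ := hMOM (K * M) (K * M) (fun k => Bk K M k) (Qm K M) ((K * M : ℕ) : ℝ)
    (Nat.cast_nonneg _) (fun k => Bk_symm K M k) (Qm_symm K M) (Qm_idem hK hM)
    (fun k => Q_Bk hK hM k) (fun u => Bk_var hK hM hK2 u) p hp
  rw [Qm_trace hK hM] at h2
  have hherm : ∀ g : Fin (K * M) → ℝ, (∑ k : Fin (K * M), g k • Bk K M k).IsHermitian := by
    intro g
    rw [Matrix.IsHermitian, Matrix.conjTranspose_eq_transpose_of_trivial, Matrix.transpose_sum]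
    refine Finset.sum_congr rfl fun k _ => ?_
    rw [Matrix.transpose_smul, Bk_symm]
  refine le_trans (measure_mono ?_) (mk h1 (fun g => trace_even_nonneg (hherm g) p)
    (t := t ^ (2 * p)) (by positivity) (le_trans h2 (le_of_eq ?_)))
  · rintro g ⟨u, hu1, hu2, hu3⟩
    show t ^ (2 * p) < ((∑ k : Fin (K * M), g k • Bk K M k) ^ (2 * p)).trace
    refine trace_even_gt hE (Nat.mul_pos hK hM) (hherm g) hp ht hu2 ?_
    rw [Bk_sum, Q_qf (Qm_symm K M) (Qm_fix hK hu1)]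
    exact hu3
  · field_simp

lemma fact_le {n : ℕ} (hn : 0 < n) :
    (n.factorial : ℝ) ≤ Real.exp 1 * √n * (n / Real.exp 1) ^ n := by
  obtain ⟨m, rfl⟩ : ∃ m, n = m + 1 := ⟨n - 1, by omega⟩
  have h1 : Stirling.stirlingSeq (m + 1) ≤ Stirling.stirlingSeq 1 :=
    Stirling.stirlingSeq'_antitone (Nat.zero_le m)
  rw [Stirling.stirlingSeq_one, Stirling.stirlingSeq, div_le_iff₀ (by positivity)] at h1
  refine h1.trans (le_of_eq ?_)
  rw [Real.sqrt_mul (by norm_num)]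
  have h2 : √2 ≠ 0 := by positivity
  field_simp

lemma dfact_sq (p : ℕ) (hp : 0 < p) : ((2 * p - 1).doubleFactorial : ℝ) ^ 2 ≤ (2 * p).factorial := by
  have h1 : (2 * p).factorial = (2 * p).doubleFactorial * (2 * p - 1).doubleFactorial := by
    obtain ⟨m, rfl⟩ : ∃ m, p = m + 1 := ⟨p - 1, by omega⟩
    exact Nat.factorial_eq_mul_doubleFactorial (2 * m + 1)
  have h2 : (2 * p - 1).doubleFactorial ≤ (2 * p).doubleFactorial := by
    have h3 : ∀ q : ℕ, (2 * q + 1).doubleFactorial ≤ (2 * q + 2).doubleFactorial := by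
      intro q
      induction q with
      | zero => decide
      | succ q ih =>
        rw [show 2 * (q + 1) + 1 = 2 * q + 1 + 2 by ring, show 2 * (q + 1) + 2 = 2 * q + 2 + 2 by ring,
          Nat.doubleFactorial_add_two, Nat.doubleFactorial_add_two]
        exact Nat.mul_le_mul (by omega) ih
    obtain ⟨m, rfl⟩ : ∃ m, p = m + 1 := ⟨p - 1, by omega⟩
    exact h3 m
  have h3 : ((2 * p - 1).doubleFactorial) ^ 2 ≤ (2 * p).factorial := by
    rw [h1, sq]
    exact Nat.mul_le_mul_right _ h2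
  exact_mod_cast h3

/-- the numerical estimate -/
lemma win_num {ε : ℝ} (hε : 0 < ε) : ∀ᶠ L : ℕ in atTop, ∃ p : ℕ, 0 < p ∧ ∀ M : ℕ, L ^ 3 ≤ M →
    M ≤ 2 * L ^ 3 + 1 → ((2 * p - 1).doubleFactorial : ℝ) * ((M : ℝ) - 1) /
      ((6 + ε) * Real.log L) ^ p ≤ ε := by
  have hlogN : Tendsto (fun N : ℕ => Real.log N) atTop atTop :=
    Real.tendsto_log_atTop.comp tendsto_natCast_atTop_atTop
  have hlim : Tendsto (fun x : ℝ => 4 * Real.exp 3 * √((6 + ε) * x) * Real.exp (-(ε * x))) atTop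
      (𝓝 0) := by
    have h1 : Tendsto (fun x : ℝ => x ^ (1 / 2 : ℝ) * Real.exp (-ε * x)) atTop (𝓝 0) :=
      tendsto_rpow_mul_exp_neg_mul_atTop_nhds_zero (1 / 2) ε hε
    have h2 := h1.const_mul (4 * Real.exp 3 * √(6 + ε))
    rw [mul_zero] at h2
    refine h2.congr fun x => ?_
    rw [Real.sqrt_mul (by positivity), ← Real.sqrt_eq_rpow, neg_mul]
    ring
  have hev : ∀ᶠ L : ℕ in atTop, 4 * Real.exp 3 * √((6 + ε) * Real.log L) *
      Real.exp (-(ε * Real.log L)) ≤ ε ^ 2 :=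
    hlogN.eventually (hlim.eventually (ge_mem_nhds (by positivity)))
  filter_upwards [hev, hlogN.eventually_ge_atTop 1, eventually_ge_atTop 1] with L h1 h2 h3
  set Λ := Real.log L with hΛ
  set A : ℝ := (6 + ε) * Λ with hA
  have hA6 : 6 ≤ A := by rw [hA]; nlinarith
  set p : ℕ := ⌊A / 2⌋₊ with hp
  have hp1 : (p : ℝ) ≤ A / 2 := Nat.floor_le (by linarith)
  have hp2 : A / 2 < p + 1 := Nat.lt_floor_add_one _
  have hp3 : 0 < p := by
    rw [hp, Nat.floor_pos]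
    linarith
  refine ⟨p, hp3, fun M hM1 hM2 => ?_⟩
  have hL' : (0 : ℝ) < L := by exact_mod_cast h3
  have hM' : 0 ≤ (M : ℝ) - 1 := by
    have : 1 ≤ M := le_trans (Nat.one_le_pow _ _ h3) hM1
    have : (1 : ℝ) ≤ M := by exact_mod_cast this
    linarith
  have hM'' : (M : ℝ) - 1 ≤ 2 * (L : ℝ) ^ 3 := by
    have : (M : ℝ) ≤ 2 * (L : ℝ) ^ 3 + 1 := by exact_mod_cast hM2
    linarith
  refine le_of_sq_le_sq ?_ hε.le
  have hp' : (0 : ℝ) < p := by exact_mod_cast hp3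
  have h4 : ((2 * p - 1).doubleFactorial : ℝ) ^ 2 ≤
      Real.exp 1 * √A * (A / Real.exp 1) ^ (2 * p) := by
    refine (dfact_sq p hp3).trans ((fact_le (by omega : 0 < 2 * p)).trans ?_)
    have h5 : ((2 * p : ℕ) : ℝ) ≤ A := by push_cast; linarith
    gcongr
  have h6 : Real.exp (-((2 * p : ℕ) : ℝ)) ≤ Real.exp 2 * Real.exp (-A) := by
    rw [← Real.exp_add]
    refine Real.exp_le_exp.2 ?_
    push_cast
    linarith
  have h7 : (L : ℝ) ^ 6 = Real.exp (6 * Λ) := by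
    rw [show (6 : ℝ) * Λ = ((6 : ℕ) : ℝ) * Λ by norm_num, Real.exp_nat_mul, hΛ, Real.exp_log hL']
  calc (((2 * p - 1).doubleFactorial : ℝ) * ((M : ℝ) - 1) / A ^ p) ^ 2
      = ((2 * p - 1).doubleFactorial : ℝ) ^ 2 * ((M : ℝ) - 1) ^ 2 / A ^ (2 * p) := by
        rw [div_pow, mul_pow, ← pow_mul, mul_comm p 2]
    _ ≤ (Real.exp 1 * √A * (A / Real.exp 1) ^ (2 * p)) * (2 * (L : ℝ) ^ 3) ^ 2 / A ^ (2 * p) := by
        gcongr
    _ = 4 * Real.exp 1 * √A * (L : ℝ) ^ 6 * Real.exp (-((2 * p : ℕ) : ℝ)) := by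
        rw [div_pow, Real.exp_neg, ← Real.exp_one_pow]
        field_simp
        ring
    _ ≤ 4 * Real.exp 1 * √A * (L : ℝ) ^ 6 * (Real.exp 2 * Real.exp (-A)) := by
        gcongr
    _ = 4 * Real.exp 3 * √A * Real.exp (-(ε * Λ)) := by
        rw [h7]
        have e1 : Real.exp 3 = Real.exp 1 * Real.exp 2 := by rw [← Real.exp_add]; norm_num
        have e2 : Real.exp (6 * Λ) * Real.exp (-A) = Real.exp (-(ε * Λ)) := by
          rw [← Real.exp_add]
          congr 1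
          rw [hA]; ring
        rw [e1, ← e2]
        ring
    _ ≤ ε ^ 2 := h1

theorem s_WIN_of (hE : S_EIG) (hMOM : S_MOM) : S_WIN := by
  intro ε hε
  filter_upwards [win_num hε, eventually_ge_atTop 2] with L h1 h2
  intro M hM1 hM2
  obtain ⟨p, hp, h3⟩ := h1
  have hL' : (2 : ℝ) ≤ L := by exact_mod_cast h2
  have hlog : 0 < Real.log L := Real.log_pos (by linarith)
  have hK : 0 < 2 * L ^ 2 := by positivity
  have hM : 0 < M := lt_of_lt_of_le (by positivity) hM1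
  have hN : 0 < 2 * L ^ 2 * M := Nat.mul_pos hK hM
  have hN' : (0 : ℝ) < ((2 * L ^ 2 * M : ℕ) : ℝ) := by exact_mod_cast hN
  set N : ℝ := ((2 * L ^ 2 * M : ℕ) : ℝ) with hNdef
  have ht : 0 < √((6 + ε) * N * Real.log L) := by positivity
  refine (win_prob hE hMOM hK hM (even_two_mul _) ht hp).trans (ENNReal.ofReal_le_ofReal ?_)
  refine le_trans (le_of_eq ?_) (h3 M hM1 hM2)
  rw [pow_mul, Real.sq_sqrt (by positivity), ← hNdef, mul_pow, mul_pow, mul_pow]
  field_simp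

end

end Pool.Agent.K7.H95.TP
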